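import Pool.Agent.Run7.h568.DG.Iface

/-!
# Piece S_scal of the project DG (MP_00a7c6_gt): the power trick
-/

open Real Matrix

noncomputable section

namespace Run7.h646.DG

open Run7.h568.DG

variable {D : Type} [Fintype D] [DecidableEq D]

lemma endp_append (T : Tri D) (u v : List Bool) (d : D) :
    T.endp (u ++ v) d = T.endp v (T.endp u d) := by
  induction u generalizing d with
  | nil => rfl
  | cons b u ih => simp [Tri.endp, ih]

lemma hol_append (T : Tri D) (x : D → ℝ) (u v : List Bool) (d : D) :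
    T.hol x (u ++ v) d = T.hol x u d * T.hol x v (T.endp u d) := by
  induction u generalizing d with
  | nil => simp [Tri.hol, Tri.endp]
  | cons b u ih => simp [Tri.hol, Tri.endp, ih, mul_assoc]

/-- repeated word -/
def rep (w : List Bool) : ℕ → List Bool
  | 0 => []
  | n + 1 => w ++ rep w n

lemma endp_rep (T : Tri D) (w : List Bool) (d : D) (h : T.endp w d = d) (n : ℕ) :
    T.endp (rep w n) d = d := by
  induction n with
  | zero => rfl
  | succ n ih => rw [rep, endp_append, h, ih]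

lemma hol_rep (T : Tri D) (x : D → ℝ) (w : List Bool) (d : D) (h : T.endp w d = d) (n : ℕ) :
    T.hol x (rep w n) d = (T.hol x w d) ^ n := by
  induction n with
  | zero => simp [rep, Tri.hol]
  | succ n ih => rw [rep, hol_append, h, ih, pow_succ']

lemma det_eq (g : SL) : g.1 0 0 * g.1 1 1 - g.1 0 1 * g.1 1 0 = 1 := by
  have := g.2
  rwa [Matrix.det_fin_two] at this

lemma tr_mul_comm (g h : SL) : tr (g * h) = tr (h * g) := by
  simp only [tr, Matrix.SpecialLinearGroup.coe_mul, Matrix.mul_apply, Fin.sum_univ_two]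
  ring

lemma tr_conj (g h : SL) : tr (g * h * g⁻¹) = tr h := by
  rw [tr_mul_comm, ← mul_assoc, inv_mul_cancel, one_mul]

lemma tr_rec (g h : SL) : tr (g * (g * h)) = tr g * tr (g * h) - tr h := by
  have hd := det_eq g
  simp only [tr, Matrix.SpecialLinearGroup.coe_mul, Matrix.mul_apply, Fin.sum_univ_two]
  linear_combination (-(h.1 0 0) - h.1 1 1) * hd

lemma tr_pow (g : SL) (μ : ℝ) (hμ : μ ≠ 0) (h : tr g = μ + μ⁻¹) (n : ℕ) :
    tr (g ^ n) = μ ^ n + μ⁻¹ ^ n := by
  have key : ∀ n, tr (g ^ n) = μ ^ n + μ⁻¹ ^ n ∧ tr (g ^ (n + 1)) = μ ^ (n + 1) + μ⁻¹ ^ (n + 1) := by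
    intro n
    induction n with
    | zero =>
      refine ⟨?_, by simpa using h⟩
      simp [tr]
    | succ n ih =>
      refine ⟨ih.2, ?_⟩
      have e : g ^ (n + 1 + 1) = g * (g * g ^ n) := by rw [pow_succ', pow_succ']
      rw [e, tr_rec, ← pow_succ', ih.1, ih.2, h]
      have h1 : μ * μ⁻¹ = 1 := mul_inv_cancel₀ hμ
      have e1 : μ ^ (n + 1) * μ⁻¹ = μ ^ n := by rw [pow_succ, mul_assoc, h1, mul_one]
      have e2 : μ⁻¹ ^ (n + 1) * μ = μ⁻¹ ^ n := by rw [pow_succ, mul_assoc, mul_comm μ⁻¹ μ, h1, mul_one]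
      calc (μ + μ⁻¹) * (μ ^ (n + 1) + μ⁻¹ ^ (n + 1)) - (μ ^ n + μ⁻¹ ^ n)
          = μ ^ (n + 1) * μ + μ⁻¹ ^ (n + 1) * μ⁻¹ + (μ ^ (n + 1) * μ⁻¹ - μ ^ n) +
            (μ⁻¹ ^ (n + 1) * μ - μ⁻¹ ^ n) := by ring
        _ = _ := by rw [e1, e2, sub_self, sub_self, ← pow_succ, ← pow_succ]; ring
  exact (key n).1

/-- the larger eigenvalue -/
def mu (t : ℝ) : ℝ := (t + √(t ^ 2 - 4)) / 2

lemma mu_spec (t : ℝ) (ht : 2 < t) : 1 ≤ mu t ∧ t = mu t + (mu t)⁻¹ := by
  have h4 : 0 ≤ t ^ 2 - 4 := by nlinarith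
  have hs := Real.sq_sqrt h4
  have hs0 := Real.sqrt_nonneg (t ^ 2 - 4)
  have h1 : 1 ≤ mu t := by unfold mu; linarith
  refine ⟨h1, ?_⟩
  have h2 : (mu t)⁻¹ = (t - √(t ^ 2 - 4)) / 2 := by
    apply DivisionMonoid.inv_eq_of_mul
    unfold mu
    nlinarith
  rw [h2]
  unfold mu
  ring

lemma len_eq (T : Tri D) (x : D → ℝ) (w : List Bool) (d : D) :
    T.len x w d = 2 * log (mu (tr (T.hol x w d))) := rfl

lemma mu_cosh (r : ℝ) (hr : 0 ≤ r) : mu (2 * cosh r) = exp r := by
  unfold mu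
  have h1 : (2 * cosh r) ^ 2 - 4 = (2 * sinh r) ^ 2 := by
    have := Real.cosh_sq r
    nlinarith
  rw [h1, Real.sqrt_sq (by have := Real.sinh_nonneg_iff.mpr hr; positivity)]
  rw [← Real.cosh_add_sinh r]
  ring

/-- the elementary inequality behind the power trick -/
lemma limit_ineq (a b k : ℝ) (ha : 1 ≤ a) (hb : 1 ≤ b) (hk : 0 ≤ k)
    (h : ∀ n : ℕ, b ^ n ≤ (a ^ n + a⁻¹ ^ n) ^ k) : log b ≤ k * log a := by
  have h1 : ∀ n : ℕ, n * (log b - k * log a) ≤ k * log 2 := by
    intro n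
    have ha0 : 0 < a := by linarith
    have hb0 : 0 < b := by linarith
    have han : 0 < a ^ n := by positivity
    have h2 : a ^ n + a⁻¹ ^ n ≤ 2 * a ^ n := by
      have h3 : a⁻¹ ≤ 1 := inv_le_one_of_one_le₀ ha
      have h4 : a⁻¹ ^ n ≤ 1 := pow_le_one₀ (by positivity) h3
      have h5 : 1 ≤ a ^ n := one_le_pow₀ ha
      linarith
    have h3 : b ^ n ≤ (2 * a ^ n) ^ k :=
      (h n).trans (Real.rpow_le_rpow (by positivity) h2 hk)
    have h4 := Real.log_le_log (by positivity) h3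
    rw [Real.log_pow, Real.log_rpow (by positivity), Real.log_mul (by norm_num) han.ne',
      Real.log_pow] at h4
    nlinarith
  by_contra hcon
  push Not at hcon
  have hpos : 0 < log b - k * log a := by linarith
  obtain ⟨n, hn⟩ := exists_nat_gt (k * log 2 / (log b - k * log a))
  rw [div_lt_iff₀ hpos] at hn
  linarith [h1 n]

/-- the case of an outer base dart -/
lemma outer_case (hword : S_word) (htr : S_tr) (T : Tri D) (A : Annulus T)
    (y : D → ℝ) (hy : y ∈ T.Teich) (l : ℝ) (hl : 0 < l) (th k : ℝ) (hk : 1 ≤ k)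
    (w : List Bool) (d : D) (hc : T.Closed w d) (ho : A.Outer d) :
    T.len (A.K (k * l) (k * th) (k • y)) w d ≤ k * T.len (A.K l th y) w d := by
  have hk0 : 0 ≤ k := by linarith
  have hend : T.endp w d = d := hc.1
  have t1 := htr T (A.K l th y) w d hc
  have t2 := htr T (A.K (k * l) (k * th) (k • y)) w d hc
  obtain ⟨hm1, hm1'⟩ := mu_spec _ t1
  obtain ⟨hm2, hm2'⟩ := mu_spec _ t2
  rw [len_eq, len_eq]
  set a := mu (tr (T.hol (A.K l th y) w d)) with ha
  set b := mu (tr (T.hol (A.K (k * l) (k * th) (k • y)) w d)) with hb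
  have hlog : log b ≤ k * log a := by
    apply limit_ineq a b k hm1 hm2 hk0
    intro n
    have hen := endp_rep T w d hend n
    have hW := hword T A y hy l hl th k hk (rep w n) d ho (by rw [hen]; exact ho)
    have hat1 : tr (A.hat l th y (rep w n) d) = a ^ n + a⁻¹ ^ n := by
      unfold Annulus.hat
      rw [hen, tr_conj, hol_rep T _ w d hend n]
      exact tr_pow _ a (by linarith) hm1' n
    have hat2 : tr (A.hat (k * l) (k * th) (k • y) (rep w n) d) = b ^ n + b⁻¹ ^ n := by
      unfold Annulus.hat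
      rw [hen, tr_conj, hol_rep T _ w d hend n]
      exact tr_pow _ b (by linarith) hm2' n
    have h00 := hW 0 0
    have h11 := hW 1 1
    have hsup : ((A.hat l th y (rep w n) d).1 0 0) ^ k + ((A.hat l th y (rep w n) d).1 1 1) ^ k ≤
        ((A.hat l th y (rep w n) d).1 0 0 + (A.hat l th y (rep w n) d).1 1 1) ^ k :=
      Real.add_rpow_le_rpow_add h00.1 h11.1 hk
    have hb0 : 0 ≤ b⁻¹ ^ n := pow_nonneg (inv_nonneg.mpr (by linarith)) n
    calc b ^ n ≤ b ^ n + b⁻¹ ^ n := by linarith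
      _ = tr (A.hat (k * l) (k * th) (k • y) (rep w n) d) := hat2.symm
      _ = (A.hat (k * l) (k * th) (k • y) (rep w n) d).1 0 0 +
          (A.hat (k * l) (k * th) (k • y) (rep w n) d).1 1 1 := rfl
      _ ≤ ((A.hat l th y (rep w n) d).1 0 0) ^ k + ((A.hat l th y (rep w n) d).1 1 1) ^ k :=
          add_le_add h00.2.2 h11.2.2
      _ ≤ ((A.hat l th y (rep w n) d).1 0 0 + (A.hat l th y (rep w n) d).1 1 1) ^ k := hsup
      _ = (tr (A.hat l th y (rep w n) d)) ^ k := rfl
      _ = _ := by rw [hat1]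
  nlinarith

theorem scal (hword : S_word) (hinner : S_inner) (htr : S_tr) : S_scal := by
  intro D _ _ T A y hy l hl th k hk w d hc
  rcases hinner T A w d hc with ⟨u, v, huv, ho⟩ | ⟨n, hn⟩
  · set d' := T.endp u d with hd'
    have hend : T.endp v d' = d := by
      have := hc.1
      rwa [huv, endp_append] at this
    have hc' : T.Closed (v ++ u) d' := by
      refine ⟨by rw [endp_append, hend], ?_, ?_⟩
      · have := hc.2.1
        rw [huv, List.mem_append] at this
        rw [List.mem_append]; tauto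
      · have := hc.2.2
        rw [huv, List.mem_append] at this
        rw [List.mem_append]; tauto
    have hlen : ∀ x : D → ℝ, T.len x w d = T.len x (v ++ u) d' := by
      intro x
      rw [len_eq, len_eq, huv, hol_append, hol_append, ← hd', hend, tr_mul_comm]
    rw [hlen, hlen]
    exact outer_case hword htr T A y hy l hl th k hk (v ++ u) d' hc' ho
  · have hkl : 0 < k * l := by positivity
    have hky : k • y ∈ T.Teich := T.Teich.smul_mem k hy
    rw [len_eq, len_eq, hn l th hl y hy, hn (k * l) (k * th) hkl (k • y) hky,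
      mu_cosh _ (by positivity), mu_cosh _ (by positivity), Real.log_exp, Real.log_exp]
    apply le_of_eq
    ring

end Run7.h646.DG
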