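import Pool.Agent.Run7.h646.Four

/-!
Trees through four clusters of two labels each.
-/

set_option autoImplicit false
set_option linter.unusedSectionVars false

namespace Run7.h646

open scoped InnerProductSpace

variable {V : Type} [NormedAddCommGroup V] [InnerProductSpace ℝ V]

/-- Label set: four clusters, two labels in each. -/
abbrev Lab : Type := Fin 4 × Bool

/-- The cost of joining the two labels of each cluster in `g` to the point `a j`. -/
def legs (p : Lab → V) (a : Fin 4 → V) (g : Finset (Fin 4)) : ℝ :=
  ∑ j ∈ g, (dist (p (j, true)) (a j) + dist (p (j, false)) (a j))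

/-- The possible shapes of a subtree of a short tree. -/
def Status (p : Lab → V) (X : Finset Lab) (z : V) (l : ℝ) : Prop :=
  X = ∅ ∨ (∃ i, X = {i} ∧ dist (p i) z ≤ l) ∨
    (∃ g : Finset (Fin 4), g.Nonempty ∧ 0 ∉ g ∧ X = g ×ˢ Finset.univ ∧
      ∃ (a : Fin 4 → V) (l' : ℝ), Conn a g z l' ∧ l' + legs p a g ≤ l) ∨
    (X = Finset.univ.erase (0, true) ∧ ∃ (m : V) (a : Fin 4 → V) (l' : ℝ),
      Conn a {1, 2, 3} m l' ∧ l' + legs p a {1, 2, 3} + dist (p (0, false)) m + dist m z ≤ l)

theorem Status.mono {p : Lab → V} {X : Finset Lab} {z : V} {l l₂ : ℝ} (h : Status p X z l)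
    (hl : l ≤ l₂) : Status p X z l₂ := by
  rcases h with h | ⟨i, h, h'⟩ | ⟨g, h1, h2, h3, a, l', h4, h5⟩ | ⟨h, m, a, l', h1, h2⟩
  · exact Or.inl h
  · exact Or.inr (Or.inl ⟨i, h, h'.trans hl⟩)
  · exact Or.inr (Or.inr (Or.inl ⟨g, h1, h2, h3, a, l', h4, h5.trans hl⟩))
  · exact Or.inr (Or.inr (Or.inr ⟨h, m, a, l', h1, h2.trans hl⟩))

theorem Status.move {p : Lab → V} {X : Finset Lab} {z : V} {l : ℝ} (h : Status p X z l) (z' : V) :
    Status p X z' (l + dist z z') := by
  rcases h with h | ⟨i, h, h'⟩ | ⟨g, h1, h2, h3, a, l', h4, h5⟩ | ⟨h, m, a, l', h1, h2⟩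
  · exact Or.inl h
  · refine Or.inr (Or.inl ⟨i, h, ?_⟩)
    have := dist_triangle (p i) z z'
    linarith
  · exact Or.inr (Or.inr (Or.inl ⟨g, h1, h2, h3, a, _, h4.move z', by linarith⟩))
  · refine Or.inr (Or.inr (Or.inr ⟨h, m, a, l', h1, ?_⟩))
    have := dist_triangle m z z'
    linarith

/-- The data needed for the lower bound. -/
structure Data (V : Type) [NormedAddCommGroup V] [InnerProductSpace ℝ V] where
  p : Lab → V
  u : Fin 4 → V
  u' : Fin 4 → V
  v : Fin 4 → V
  L : ℝ
  ρ : ℝ
  δ : ℝ
  hu : ∀ X, okS X → ‖∑ i ∈ X, u i‖ ≤ 1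
  hu' : ∀ X, okT X → ‖∑ i ∈ X, u' i‖ ≤ 1
  h0 : ∑ i, u i = 0
  h0' : ∑ i, u' i = 0
  sel : ∀ b : Fin 4 → Bool, L - ρ ≤ ∑ i, ⟪u i, p (i, b i)⟫_ℝ
  sel' : ∀ b : Fin 4 → Bool, L - ρ ≤ ∑ i, ⟪u' i, p (i, b i)⟫_ℝ
  near : ∀ i : Lab, dist (p i) (v i.1) ≤ δ
  far : ∀ i j : Fin 4, i ≠ j → 2 * ρ + 2 * δ ≤ dist (v i) (v j)
  pass : ∀ k a b c : Fin 4, a ≠ k → b ≠ k → c ≠ k → a ≠ b → a ≠ c → b ≠ c →
    ∀ z m : V, dist z (v k) ≤ ρ + δ →
      L ≤ dist (p (a, true)) z + (dist (p (b, true)) m + dist (p (c, true)) m + dist m z)
  fin : ∀ a : Fin 4 → V, L ≤ legs p a Finset.univ + ∑ i, ⟪u i, a i⟫_ℝ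
  fin' : ∀ a : Fin 4 → V, L ≤ legs p a Finset.univ + ∑ i, ⟪u' i, a i⟫_ℝ

variable (D : Data V)

theorem Data.single_near {i : Lab} {z : V} {l : ℝ}
    (hR : Conn D.p (Finset.univ.erase i) z l) (hlt : dist (D.p i) z + l < D.L) :
    dist (D.p i) z < D.ρ := by
  classical
  set b : Fin 4 → Bool := fun j => if j = i.1 then !i.2 else true with hb
  have he : Function.Injective (fun j : Fin 4 => ((j, b j) : Lab)) := by
    intro j j' h
    simpa using congrArg Prod.fst h
  have h1 := Conn.restrict (fun j : Fin 4 => ((j, b j) : Lab)) he hR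
  have h2 : (Finset.univ.filter (fun j : Fin 4 => ((j, b j) : Lab) ∈ Finset.univ.erase i)) =
      Finset.univ := by
    rw [Finset.filter_eq_self]
    intro j _
    rw [Finset.mem_erase]
    refine ⟨?_, Finset.mem_univ _⟩
    intro h
    have h3 : j = i.1 := congrArg Prod.fst h
    have h4 : b j = i.2 := congrArg Prod.snd h
    simp only [hb, h3, if_true] at h4
    cases hi : i.2 <;> simp [hi] at h4
  rw [h2] at h1
  rcases four D.hu D.hu' D.h0 D.h0' h1 with h | h
  · have := D.sel b
    linarith
  · have := D.sel' b
    linarith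

set_option synthInstance.maxSize 4000 in
theorem comb_pass : ∀ (k : Fin 4) (g : Finset (Fin 4)), g ≠ ∅ → k ∉ g →
    g ≠ Finset.univ.erase k →
    ∃ a b c : Fin 4, a ≠ k ∧ b ≠ k ∧ c ≠ k ∧ a ≠ b ∧ a ≠ c ∧ b ≠ c ∧
      ((a ∈ g ∧ b ∉ g ∧ c ∉ g) ∨ (a ∉ g ∧ b ∈ g ∧ c ∈ g)) := by
  decide +kernel

theorem Data.pass_near {k : Fin 4} {g : Finset (Fin 4)} (hg : g.Nonempty) (hk : k ∉ g)
    (hne : g ≠ Finset.univ.erase k) {z : V} (hz : dist z (D.v k) ≤ D.ρ + D.δ)
    {G O : Finset Lab} {l l' : ℝ} (hG : Conn D.p G z l) (hO : Conn D.p O z l')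
    (hgG : ∀ j ∈ g, (j, true) ∈ G) (hgO : ∀ j, j ∉ g → j ≠ k → (j, true) ∈ O) :
    D.L ≤ l + l' := by
  obtain ⟨a, b, c, hak, hbk, hck, hab, hac, hbc, h⟩ := comb_pass k g hg.ne_empty hk hne
  have hbc' : ((b, true) : Lab) ≠ (c, true) := fun h => hbc (congrArg Prod.fst h)
  rcases h with ⟨ha, hb, hc⟩ | ⟨ha, hb, hc⟩
  · have h1 := hG.one (hgG a ha)
    obtain ⟨m, hm⟩ := hO.two (hgO b hb hbk) (hgO c hc hck) hbc'
    have := D.pass k a b c hak hbk hck hab hac hbc z m hz
    linarith
  · have h1 := hO.one (hgO a ha hak)
    obtain ⟨m, hm⟩ := hG.two (hgG b hb) (hgG c hc) hbc'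
    have := D.pass k a b c hak hbk hck hab hac hbc z m hz
    linarith

/-- A single label and a group of clusters meeting at `z`. -/
theorem Data.single_group {i : Lab} {g : Finset (Fin 4)} {z : V} {t l l' : ℝ} {O : Finset Lab}
    (ht : dist (D.p i) z ≤ t) (hg : g.Nonempty) (h0g : 0 ∉ g)
    (hG : Conn D.p (g ×ˢ Finset.univ) z l)
    {a : Fin 4 → V} {l₁ : ℝ} (ha : Conn a g z l₁) (hl₁ : l₁ + legs D.p a g ≤ l)
    (hO : Conn D.p O z l') (hroot : (0, true) ∈ O)
    (hiG : i ∉ g ×ˢ (Finset.univ : Finset Bool)) (hiO : i ∉ O)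
    (hGO : Disjoint (g ×ˢ (Finset.univ : Finset Bool)) O)
    (hun : ({i} ∪ g ×ˢ (Finset.univ : Finset Bool)) ∪ O = Finset.univ)
    (hlt : t + l + l' < D.L) :
    Status D.p ({i} ∪ g ×ˢ Finset.univ) z (t + l) := by
  classical
  have hmem : ∀ x : Lab, x = i ∨ x.1 ∈ g ∨ x ∈ O := by
    intro x
    have : x ∈ ({i} ∪ g ×ˢ (Finset.univ : Finset Bool)) ∪ O := by rw [hun]; exact Finset.mem_univ _
    simpa [or_assoc] using this
  have hig : i.1 ∉ g := fun h => hiG (by simp [h])
  -- the pendant bound
  have hrest : Conn D.p (Finset.univ.erase i) z (l + l') := by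
    have h := hG.join hO hGO
    have e : (g ×ˢ (Finset.univ : Finset Bool)) ∪ O = Finset.univ.erase i := by
      ext x
      simp only [Finset.mem_union, Finset.mem_product, Finset.mem_univ, and_true,
        Finset.mem_erase, ne_eq]
      constructor
      · rintro (h | h)
        · exact fun hx => hig (hx ▸ h)
        · exact fun hx => hiO (hx ▸ h)
      · intro hx
        rcases hmem x with h | h | h
        · exact absurd h hx
        · exact Or.inl h
        · exact Or.inr h
    rwa [e] at h
  have hnear : dist (D.p i) z < D.ρ := D.single_near hrest (by linarith)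
  have hz : dist z (D.v i.1) ≤ D.ρ + D.δ := by
    have h1 := D.near i
    have h2 := dist_triangle z (D.p i) (D.v i.1)
    rw [dist_comm z (D.p i)] at h2
    linarith
  by_cases hne : g = Finset.univ.erase i.1
  · -- the group contains all other clusters, so `i = (0, false)`
    have hi0 : i.1 = 0 := by
      by_contra hcon
      apply h0g
      rw [hne, Finset.mem_erase]
      exact ⟨fun h => hcon h.symm, Finset.mem_univ _⟩
    have hi : i = (0, false) := by
      have : i ≠ (0, true) := fun h => hiO (h ▸ hroot)
      rcases i with ⟨i1, i2⟩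
      simp only at hi0
      subst hi0
      cases i2
      · rfl
      · exact absurd rfl this
    subst hi
    have hg3 : g = {1, 2, 3} := by rw [hne]; decide
    subst hg3
    refine Or.inr (Or.inr (Or.inr ⟨by decide, z, a, l₁, ha, ?_⟩))
    rw [dist_self]
    linarith
  · exfalso
    have := D.pass_near hg hig hne hz hG hO (fun j hj => by simp [hj]) (fun j hj hjk => by
      rcases hmem (j, true) with h | h | h
      · exact absurd (congrArg Prod.fst h) hjk
      · exact absurd h hj
      · exact h)
    have h0t : 0 ≤ t := le_trans dist_nonneg ht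
    linarith

theorem legs_congr {p : Lab → V} {a b : Fin 4 → V} {g : Finset (Fin 4)}
    (h : ∀ j ∈ g, a j = b j) : legs p a g = legs p b g := by
  unfold legs
  exact Finset.sum_congr rfl fun j hj => by rw [h j hj]

theorem Data.combine {X Y O : Finset Lab} {z : V} {l l' lO : ℝ} (hX : Conn D.p X z l)
    (hY : Conn D.p Y z l') (hXY : Disjoint X Y) (hO : Conn D.p O z lO)
    (hXO : Disjoint (X ∪ Y) O) (hun : (X ∪ Y) ∪ O = Finset.univ) (hroot : (0, true) ∈ O)
    (hlt : l + l' + lO < D.L) (sX : Status D.p X z l) (sY : Status D.p Y z l') :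
    Status D.p (X ∪ Y) z (l + l') := by
  classical
  have hlX := hX.nonneg
  have hlY := hY.nonneg
  have hdXO : Disjoint X O := (Finset.disjoint_union_left.1 hXO).1
  have hdYO : Disjoint Y O := (Finset.disjoint_union_left.1 hXO).2
  -- trivial cases
  by_cases hXe : X = ∅
  · subst hXe
    rw [Finset.empty_union]
    exact sY.mono (by linarith)
  by_cases hYe : Y = ∅
  · subst hYe
    rw [Finset.union_empty]
    exact sX.mono (by linarith)
  -- nothing can be added to the top status
  have htop : ∀ A B : Finset Lab, A = Finset.univ.erase (0, true) → Disjoint A B → Disjoint B O →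
      B ≠ ∅ → False := by
    intro A B hA hAB hBO hB
    obtain ⟨x, hx⟩ := Finset.nonempty_iff_ne_empty.2 hB
    by_cases hx0 : x = (0, true)
    · subst hx0
      exact Finset.disjoint_left.1 hBO hx hroot
    · exact Finset.disjoint_left.1 hAB (by rw [hA, Finset.mem_erase]; exact ⟨hx0, by simp⟩) hx
  rcases sX with h | ⟨i, hi, hti⟩ | ⟨g, hgn, h0g, hgX, a, l₁, hca, hla⟩ | ⟨h, -⟩
  · exact absurd h hXe
  · subst hi
    rcases sY with h | ⟨j, hj, htj⟩ | ⟨g, hgn, h0g, hgY, a, l₁, hca, hla⟩ | ⟨h, -⟩
    · exact absurd h hYe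
    · subst hj
      have hij : i ≠ j := by
        intro h; subst h; simp at hXY
      have hiO : i ∉ O := by simpa using hdXO
      have hjO : j ∉ O := by simpa using hdYO
      have hmem : ∀ x : Lab, x = i ∨ x = j ∨ x ∈ O := by
        intro x
        have : x ∈ ({i} ∪ {j} : Finset Lab) ∪ O := by rw [hun]; exact Finset.mem_univ _
        simpa [or_assoc] using this
      by_cases hc : i.1 = j.1
      · -- same cluster
        have h0 : i.1 ≠ 0 := by
          intro h0
          have h1 : i = (0, true) ∨ j = (0, true) := by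
            rcases i with ⟨i1, i2⟩
            rcases j with ⟨j1, j2⟩
            simp only at h0 hc
            subst h0
            subst hc
            cases i2 <;> cases j2 <;> simp_all
          rcases h1 with h1 | h1
          · exact hiO (h1 ▸ hroot)
          · exact hjO (h1 ▸ hroot)
        refine Or.inr (Or.inr (Or.inl ⟨{i.1}, by simp, by simpa using fun h => h0 h.symm, ?_,
          fun _ => z, 0, ?_, ?_⟩))
        · rcases i with ⟨i1, i2⟩
          rcases j with ⟨j1, j2⟩
          simp only at hc
          subst hc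
          ext ⟨x1, x2⟩
          cases i2 <;> cases j2 <;> cases x2 <;> simp_all
        · exact Conn.lab (p := fun _ : Fin 4 => z) i.1
        · unfold legs
          rw [Finset.sum_singleton, zero_add]
          rcases i with ⟨i1, i2⟩
          rcases j with ⟨j1, j2⟩
          simp only at hc hti htj ⊢
          subst hc
          cases i2 <;> cases j2
          · exact absurd rfl hij
          · linarith
          · linarith
          · exact absurd rfl hij
      · -- different clusters
        exfalso
        have hr1 : Conn D.p (Finset.univ.erase i) z (l' + lO) := by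
          have h := hY.join hO hdYO
          have e : {j} ∪ O = Finset.univ.erase i := by
            ext x
            simp only [Finset.mem_union, Finset.mem_singleton, Finset.mem_erase, ne_eq,
              Finset.mem_univ, and_true]
            constructor
            · rintro (h | h)
              · rw [h]; exact fun h => hij h.symm
              · exact fun hx => hiO (hx ▸ h)
            · intro hx
              rcases hmem x with h | h | h
              · exact absurd h hx
              · exact Or.inl h
              · exact Or.inr h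
          rwa [e] at h
        have hr2 : Conn D.p (Finset.univ.erase j) z (l + lO) := by
          have h := hX.join hO hdXO
          have e : {i} ∪ O = Finset.univ.erase j := by
            ext x
            simp only [Finset.mem_union, Finset.mem_singleton, Finset.mem_erase, ne_eq,
              Finset.mem_univ, and_true]
            constructor
            · rintro (h | h)
              · rw [h]; exact hij
              · exact fun hx => hjO (hx ▸ h)
            · intro hx
              rcases hmem x with h | h | h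
              · exact Or.inl h
              · exact absurd h hx
              · exact Or.inr h
          rwa [e] at h
        have h1 := D.single_near hr1 (by linarith)
        have h2 := D.single_near hr2 (by linarith)
        have h3 := D.near i
        have h4 := D.near j
        have h5 := D.far i.1 j.1 hc
        have h6 := dist_triangle4 (D.v i.1) (D.p i) (D.p j) (D.v j.1)
        have h7 := dist_triangle_right (D.p i) (D.p j) z
        rw [dist_comm (D.v i.1) (D.p i)] at h6
        linarith
    · subst hgY
      exact D.single_group hti hgn h0g hY hca hla hO hroot (by simpa using hXY)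
        (by simpa using hdXO) hdYO hun (by linarith)
    · exact (htop Y {i} h hXY.symm hdXO hXe).elim
  · subst hgX
    rcases sY with h | ⟨j, hj, htj⟩ | ⟨g', hgn', h0g', hgY, a', l₁', hca', hla'⟩ | ⟨h, -⟩
    · exact absurd h hYe
    · subst hj
      have := D.single_group htj hgn h0g hX hca hla hO hroot (by simpa using hXY.symm)
        (by simpa using hdYO) hdXO (by rwa [Finset.union_comm {j}]) (by linarith)
      rw [Finset.union_comm {j}, add_comm l' l] at this
      exact this
    · subst hgY
      have hgg : Disjoint g g' := by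
        rw [Finset.disjoint_left]
        intro j hj hj'
        exact Finset.disjoint_left.1 hXY
          (show ((j, true) : Lab) ∈ g ×ˢ (Finset.univ : Finset Bool) by simp [hj])
          (show ((j, true) : Lab) ∈ g' ×ˢ (Finset.univ : Finset Bool) by simp [hj'])
      set b : Fin 4 → V := fun j => if j ∈ g then a j else a' j with hb
      have hb1 : ∀ j ∈ g, a j = b j := by
        intro j hj; simp [hb, hj]
      have hb2 : ∀ j ∈ g', a' j = b j := by
        intro j hj
        have : j ∉ g := fun h => Finset.disjoint_left.1 hgg h hj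
        simp [hb, this]
      refine Or.inr (Or.inr (Or.inl ⟨g ∪ g', hgn.mono Finset.subset_union_left, ?_, ?_, b,
        l₁ + l₁', (hca.congr hb1).join (hca'.congr hb2) hgg, ?_⟩))
      · simp [h0g, h0g']
      · rw [Finset.union_product]
      · have e : legs D.p b (g ∪ g') = legs D.p a g + legs D.p a' g' := by
          rw [legs_congr hb1, legs_congr hb2]
          unfold legs
          rw [Finset.sum_union hgg]
        rw [e]
        linarith
    · exact (htop Y _ h hXY.symm hdXO hXe).elim
  · exact (htop X Y h hXY hdYO hYe).elim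

theorem Data.status {X : Finset Lab} {z : V} {l : ℝ} (hX : Conn D.p X z l) :
    ∀ (O : Finset Lab) (lO : ℝ), Conn D.p O z lO → Disjoint X O → X ∪ O = Finset.univ →
      (0, true) ∈ O → l + lO < D.L → Status D.p X z l := by
  induction hX with
  | nil z =>
    intro O lO _ _ _ _ _
    exact Or.inl rfl
  | lab i =>
    intro O lO _ _ _ _ _
    exact Or.inr (Or.inl ⟨i, rfl, by simp⟩)
  | @move X z l z' h ih =>
    intro O lO hO hd hun hroot hlt
    have h1 := ih O (lO + dist z' z) (hO.move z) hd hun hroot (by
      rw [dist_comm z' z]; linarith)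
    exact h1.move z'
  | @join X Y z l l' h1 h2 hd ih1 ih2 =>
    intro O lO hO hdO hun hroot hlt
    have hdXO : Disjoint X O := (Finset.disjoint_union_left.1 hdO).1
    have hdYO : Disjoint Y O := (Finset.disjoint_union_left.1 hdO).2
    refine D.combine h1 h2 hd hO hdO hun hroot hlt ?_ ?_
    · refine ih1 (Y ∪ O) (l' + lO) (h2.join hO hdYO) ?_ ?_ (Finset.mem_union_right _ hroot)
        (by linarith)
      · rw [Finset.disjoint_union_right]; exact ⟨hd, hdXO⟩
      · rw [← Finset.union_assoc]; exact hun
    · refine ih2 (X ∪ O) (l + lO) (h1.join hO hdXO) ?_ ?_ (Finset.mem_union_right _ hroot)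
        (by linarith)
      · rw [Finset.disjoint_union_right]; exact ⟨hd.symm, hdYO⟩
      · rw [← Finset.union_assoc, Finset.union_comm Y X]; exact hun

/-- The lower bound for trees through all eight labels. -/
theorem Data.main {l : ℝ} (h : Conn D.p (Finset.univ.erase (0, true)) (D.p (0, true)) l) :
    D.L ≤ l := by
  by_contra hcon
  push Not at hcon
  have hs := D.status h {(0, true)} 0 (Conn.lab _) (by simp) (by decide +kernel) (by simp)
    (by linarith)
  rcases hs with hs | ⟨i, hi, -⟩ | ⟨g, -, h0g, hg, -⟩ | ⟨-, m, a, l', hc, hl⟩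
  · have : ((1, true) : Lab) ∈ (Finset.univ.erase (0, true) : Finset Lab) := by decide
    rw [hs] at this
    simp at this
  · have h1 : ((1, true) : Lab) ∈ (Finset.univ.erase (0, true) : Finset Lab) := by decide
    have h2 : ((1, false) : Lab) ∈ (Finset.univ.erase (0, true) : Finset Lab) := by decide
    rw [hi, Finset.mem_singleton] at h1 h2
    rw [← h1] at h2
    simp at h2
  · have h1 : ((0, false) : Lab) ∈ (Finset.univ.erase (0, true) : Finset Lab) := by decide
    rw [hg] at h1
    simp at h1
    exact h0g h1
  · set b : Fin 4 → V := Function.update a 0 m with hb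
    have hb0 : b 0 = m := by simp [hb]
    have hba : ∀ j ∈ ({1, 2, 3} : Finset (Fin 4)), a j = b j := by
      intro j hj
      have : j ≠ 0 := by
        rintro rfl
        revert hj
        decide
      rw [hb, Function.update_of_ne this]
    have h1 : Conn b {0} m 0 := by
      have := Conn.lab (p := b) 0
      rwa [hb0] at this
    have h2 := h1.join (hc.congr hba) (by decide)
    have e : ({0} : Finset (Fin 4)) ∪ {1, 2, 3} = Finset.univ := by decide
    rw [e, zero_add] at h2
    have h3 : legs D.p b Finset.univ = dist (D.p (0, true)) m + dist (D.p (0, false)) m +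
        legs D.p a {1, 2, 3} := by
      rw [legs_congr hba, ← e]
      unfold legs
      rw [Finset.sum_union (by decide), Finset.sum_singleton, hb0]
    have h4 : dist (D.p (0, true)) m = dist m (D.p (0, true)) := dist_comm _ _
    rcases four D.hu D.hu' D.h0 D.h0' h2 with h | h
    · have := D.fin b
      linarith
    · have := D.fin' b
      linarith

end Run7.h646
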