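import Mathlib

/-!
Rooted trees of segments, recorded only through their label set, root and total length, and
the extraction of such trees from compact connected sets of finite one-dimensional measure.
-/

set_option autoImplicit false

namespace Run7.h646

open MeasureTheory Set Metric

/-- `Conn p X z l`: some finite tree of segments with root `z` contains the points `p i`, `i ∈ X`,
and has total length `l`. -/
inductive Conn {E ι : Type} [MetricSpace E] [DecidableEq ι] (p : ι → E) :
    Finset ι → E → ℝ → Prop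
  | nil (z : E) : Conn p ∅ z 0
  | lab (i : ι) : Conn p {i} (p i) 0
  | move {X : Finset ι} {z : E} {l : ℝ} (z' : E) : Conn p X z l → Conn p X z' (l + dist z z')
  | join {X Y : Finset ι} {z : E} {l l' : ℝ} : Conn p X z l → Conn p Y z l' → Disjoint X Y →
      Conn p (X ∪ Y) z (l + l')

namespace Conn

variable {E ι : Type} [MetricSpace E] [DecidableEq ι] {p p' : ι → E}

theorem nonneg {X : Finset ι} {z : E} {l : ℝ} (h : Conn p X z l) : 0 ≤ l := by
  induction h with
  | nil z => exact le_rfl
  | lab i => exact le_rfl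
  | move z' _ ih => exact add_nonneg ih dist_nonneg
  | join _ _ _ ih1 ih2 => exact add_nonneg ih1 ih2

theorem one {X : Finset ι} {z : E} {l : ℝ} (h : Conn p X z l) {i : ι} (hi : i ∈ X) :
    dist (p i) z ≤ l := by
  induction h with
  | nil z => simp at hi
  | lab j => rw [Finset.mem_singleton] at hi; subst hi; simp
  | @move X z l z' _ ih =>
    have := dist_triangle (p i) z z'
    linarith [ih hi]
  | join h1 h2 _ ih1 ih2 =>
    rcases Finset.mem_union.1 hi with hi | hi
    · linarith [ih1 hi, h2.nonneg]
    · linarith [ih2 hi, h1.nonneg]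

theorem two {X : Finset ι} {z : E} {l : ℝ} (h : Conn p X z l) {i j : ι} (hi : i ∈ X)
    (hj : j ∈ X) (hij : i ≠ j) : ∃ m, dist (p i) m + dist (p j) m + dist m z ≤ l := by
  induction h with
  | nil z => simp at hi
  | lab k =>
    rw [Finset.mem_singleton] at hi hj
    exact absurd (hi.trans hj.symm) hij
  | @move X z l z' _ ih =>
    obtain ⟨m, hm⟩ := ih hi hj
    refine ⟨m, ?_⟩
    have := dist_triangle m z z'
    linarith
  | @join X Y z l l' h1 h2 _ ih1 ih2 =>
    rcases Finset.mem_union.1 hi with hi | hi <;> rcases Finset.mem_union.1 hj with hj | hj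
    · obtain ⟨m, hm⟩ := ih1 hi hj
      exact ⟨m, by linarith [h2.nonneg]⟩
    · refine ⟨z, ?_⟩
      have a := h1.one hi
      have b := h2.one hj
      simp only [dist_self]
      linarith
    · refine ⟨z, ?_⟩
      have a := h1.one hj
      have b := h2.one hi
      simp only [dist_self]
      linarith
    · obtain ⟨m, hm⟩ := ih2 hi hj
      exact ⟨m, by linarith [h1.nonneg]⟩

theorem congr {X : Finset ι} {z : E} {l : ℝ} (h : Conn p X z l) (hp : ∀ i ∈ X, p i = p' i) :
    Conn p' X z l := by
  induction h with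
  | nil z => exact Conn.nil z
  | lab j => rw [hp j (by simp)]; exact Conn.lab j
  | @move X z l z' _ ih => exact Conn.move z' (ih hp)
  | @join X Y z l l' h1 h2 hd ih1 ih2 =>
    exact Conn.join (ih1 fun i hi => hp i (Finset.mem_union_left _ hi))
      (ih2 fun i hi => hp i (Finset.mem_union_right _ hi)) hd

theorem star (p : ι → E) (q : E) (Y : Finset ι) : Conn p Y q (∑ i ∈ Y, dist (p i) q) := by
  induction Y using Finset.induction_on with
  | empty => simpa using Conn.nil q
  | insert a s ha ih =>
    rw [Finset.sum_insert ha]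
    have h1 : Conn p {a} q (dist (p a) q) := by
      simpa using Conn.move q (Conn.lab (p := p) a)
    have := Conn.join h1 ih (by simpa using ha)
    rwa [Finset.insert_eq]

theorem graft {X : Finset ι} {z : E} {l : ℝ} (h : Conn p' X z l) (i₀ : ι) (Y : Finset ι) (c : ℝ)
    (hY : Conn p Y (p' i₀) c) (hiY : i₀ ∈ Y) (hp : ∀ i ∈ X, i ≠ i₀ → p' i = p i)
    (hXY : ∀ i ∈ X, i ∈ Y → i = i₀) (hi : i₀ ∈ X) : Conn p (X ∪ Y) z (l + c) := by
  induction h with
  | nil z => simp at hi
  | lab j =>
    rw [Finset.mem_singleton] at hi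
    subst hi
    have : ({i₀} : Finset ι) ∪ Y = Y := by
      rw [Finset.union_eq_right]; simpa using hiY
    rw [this, zero_add]
    exact hY
  | @move X z l z' _ ih =>
    have := Conn.move z' (ih hp hXY hi)
    have e : l + dist z z' + c = l + c + dist z z' := by ring
    rw [e]; exact this
  | @join X₁ X₂ z l l' h1 h2 hd ih1 ih2 =>
    rcases Finset.mem_union.1 hi with hi | hi
    · have hn : i₀ ∉ X₂ := fun h => Finset.disjoint_left.1 hd hi h
      have a := ih1 (fun i hi => hp i (Finset.mem_union_left _ hi))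
        (fun i hi => hXY i (Finset.mem_union_left _ hi)) hi
      have b := h2.congr (p' := p) (fun i hi => hp i (Finset.mem_union_right _ hi)
        (fun h => hn (h ▸ hi)))
      have hdis : Disjoint (X₁ ∪ Y) X₂ := by
        rw [Finset.disjoint_union_left]
        refine ⟨hd, ?_⟩
        rw [Finset.disjoint_left]
        intro i hi1 hi2
        have := hXY i (Finset.mem_union_right _ hi2) hi1
        exact hn (this ▸ hi2)
      have := Conn.join a b hdis
      have e1 : X₁ ∪ X₂ ∪ Y = X₁ ∪ Y ∪ X₂ := by
        ext i; simp only [Finset.mem_union]; tauto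
      have e2 : l + l' + c = l + c + l' := by ring
      rw [e1, e2]; exact this
    · have hn : i₀ ∉ X₁ := fun h => Finset.disjoint_left.1 hd h hi
      have a := ih2 (fun i hi => hp i (Finset.mem_union_right _ hi))
        (fun i hi => hXY i (Finset.mem_union_right _ hi)) hi
      have b := h1.congr (p' := p) (fun i hi => hp i (Finset.mem_union_left _ hi)
        (fun h => hn (h ▸ hi)))
      have hdis : Disjoint X₁ (X₂ ∪ Y) := by
        rw [Finset.disjoint_union_right]
        refine ⟨hd, ?_⟩
        rw [Finset.disjoint_left]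
        intro i hi1 hi2
        have := hXY i (Finset.mem_union_left _ hi1) hi2
        exact hn (this ▸ hi1)
      have := Conn.join b a hdis
      have e1 : X₁ ∪ X₂ ∪ Y = X₁ ∪ (X₂ ∪ Y) := by
        ext i; simp only [Finset.mem_union]; tauto
      have e2 : l + l' + c = l + (l' + c) := by ring
      rw [e1, e2]; exact this

theorem restrict {κ : Type} [DecidableEq κ] [Fintype κ] (e : κ → ι) (he : Function.Injective e)
    {X : Finset ι} {z : E} {l : ℝ} (h : Conn p X z l) :
    Conn (fun k => p (e k)) (Finset.univ.filter (fun k => e k ∈ X)) z l := by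
  induction h with
  | nil z => simpa using Conn.nil z
  | lab j =>
    by_cases hj : ∃ k, e k = j
    · obtain ⟨k, rfl⟩ := hj
      have : (Finset.univ.filter (fun k' => e k' ∈ ({e k} : Finset ι))) = {k} := by
        ext k'; simp [he.eq_iff]
      rw [this]
      exact Conn.lab (p := fun k => p (e k)) k
    · have : (Finset.univ.filter (fun k' => e k' ∈ ({j} : Finset ι))) = ∅ := by
        rw [Finset.filter_eq_empty_iff]
        intro k' _ h
        exact hj ⟨k', Finset.mem_singleton.1 h⟩
      rw [this]
      exact Conn.nil _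
  | @move X z l z' _ ih => exact Conn.move z' ih
  | @join X Y z l l' h1 h2 hd ih1 ih2 =>
    have : (Finset.univ.filter (fun k => e k ∈ X ∪ Y)) =
        (Finset.univ.filter (fun k => e k ∈ X)) ∪ (Finset.univ.filter (fun k => e k ∈ Y)) := by
      ext k; simp
    rw [this]
    refine Conn.join ih1 ih2 ?_
    rw [Finset.disjoint_left]
    intro k hk1 hk2
    simp only [Finset.mem_filter, Finset.mem_univ, true_and] at hk1 hk2
    exact Finset.disjoint_left.1 hd hk1 hk2

end Conn

section Nerve

variable {E ι : Type} [MetricSpace E] [DecidableEq ι]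

/-- The sets `S k`, `k ∈ K`, carry trees with root `z` whose length is controlled by `d`. -/
def Good (ι : Type) [DecidableEq ι] (S : ℕ → Set E) (d : ℕ → ℝ) (η : ℝ) (z : E)
    (K : Finset ℕ) : Prop :=
  ∀ (p : ι → E) (X : Finset ι), X.Nonempty → (∀ i ∈ X, ∃ k ∈ K, p i ∈ S k) →
    ∃ l, Conn p X z l ∧ l ≤ ∑ k ∈ K, d k + ((X.card : ℝ) - 1) * η

theorem good_singleton {S : ℕ → Set E} {d : ℕ → ℝ} {η : ℝ} {z : E} {k₀ : ℕ} (hz : z ∈ S k₀)
    (hd : ∀ a ∈ S k₀, ∀ b ∈ S k₀, dist a b ≤ d k₀) (hη : d k₀ ≤ η) :
    Good ι S d η z {k₀} := by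
  intro p X hX hp
  refine ⟨_, Conn.star p z X, ?_⟩
  have h1 : ∑ i ∈ X, dist (p i) z ≤ ∑ i ∈ X, d k₀ := by
    refine Finset.sum_le_sum fun i hi => ?_
    obtain ⟨k, hk, hpk⟩ := hp i hi
    rw [Finset.mem_singleton] at hk
    subst hk
    exact hd _ hpk _ hz
  rw [Finset.sum_const, nsmul_eq_mul] at h1
  rw [Finset.sum_singleton]
  have h2 : (1 : ℝ) ≤ X.card := by
    exact_mod_cast hX.card_pos
  nlinarith

theorem good_insert {S : ℕ → Set E} {d : ℕ → ℝ} {η : ℝ} {z : E} {K : Finset ℕ} {j : ℕ}
    (hj : j ∉ K) (h : Good ι S d η z K) {q : E} {k : ℕ} (hk : k ∈ K) (hqk : q ∈ S k)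
    (hqj : q ∈ S j) (hd : ∀ a ∈ S j, ∀ b ∈ S j, dist a b ≤ d j) (hη : d j ≤ η) :
    Good ι S d η z (insert j K) := by
  classical
  intro p X hX hp
  have hd0 : 0 ≤ d j := le_trans dist_nonneg (hd q hqj q hqj)
  rw [Finset.sum_insert hj]
  set Y : Finset ι := X.filter (fun i => ∀ k ∈ K, p i ∉ S k) with hY
  have hYj : ∀ i ∈ Y, p i ∈ S j := by
    intro i hi
    rw [hY, Finset.mem_filter] at hi
    obtain ⟨k', hk', hpk'⟩ := hp i hi.1
    rcases Finset.mem_insert.1 hk' with rfl | hk'
    · exact hpk'
    · exact absurd hpk' (hi.2 k' hk')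
  rcases Y.eq_empty_or_nonempty with hYe | ⟨i₀, hi₀⟩
  · obtain ⟨l, hl, hl'⟩ := h p X hX (by
      intro i hi
      by_contra hcon
      push Not at hcon
      have : i ∈ Y := by rw [hY, Finset.mem_filter]; exact ⟨hi, hcon⟩
      rw [hYe] at this
      exact absurd this (Finset.notMem_empty i))
    exact ⟨l, hl, by linarith⟩
  · set p' : ι → E := Function.update p i₀ q with hp'
    set X' : Finset ι := insert i₀ (X \ Y) with hX'
    have hYX : Y ⊆ X := Finset.filter_subset _ _
    have hi₀X : i₀ ∉ X \ Y := by simp [hi₀]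
    obtain ⟨l, hl, hl'⟩ := h p' X' ⟨i₀, by simp [hX']⟩ (by
      intro i hi
      rcases Finset.mem_insert.1 hi with rfl | hi
      · exact ⟨k, hk, by simpa [hp'] using hqk⟩
      · have hne : i ≠ i₀ := fun h => hi₀X (h ▸ hi)
        rw [Finset.mem_sdiff] at hi
        by_contra hcon
        push Not at hcon
        apply hi.2
        rw [hY, Finset.mem_filter]
        refine ⟨hi.1, fun k hk hmem => hcon k hk ?_⟩
        rw [hp', Function.update_of_ne hne]
        exact hmem)
    have hst := Conn.star p q Y
    have hgr := Conn.graft (p := p) (p' := p') hl i₀ Y _ (by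
      have : p' i₀ = q := by simp [hp']
      rw [this]; exact hst) hi₀ (by
        intro i _ hne
        rw [hp', Function.update_of_ne hne]) (by
        intro i hi hiY
        rcases Finset.mem_insert.1 hi with rfl | hi
        · rfl
        · exact absurd hiY (Finset.mem_sdiff.1 hi).2) (by simp [hX'])
    have hun : X' ∪ Y = X := by
      ext i
      simp only [hX', Finset.mem_union, Finset.mem_insert, Finset.mem_sdiff]
      constructor
      · rintro ((rfl | h) | h)
        · exact hYX hi₀
        · exact h.1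
        · exact hYX h
      · intro hi
        by_cases hiY : i ∈ Y
        · exact Or.inr hiY
        · exact Or.inl (Or.inr ⟨hi, hiY⟩)
    rw [hun] at hgr
    refine ⟨_, hgr, ?_⟩
    have h1 : ∑ i ∈ Y, dist (p i) q ≤ ∑ i ∈ Y, d j :=
      Finset.sum_le_sum fun i hi => hd _ (hYj i hi) _ hqj
    rw [Finset.sum_const, nsmul_eq_mul] at h1
    have hcard : (X'.card : ℝ) = X.card - Y.card + 1 := by
      rw [hX', Finset.card_insert_of_notMem hi₀X, Finset.card_sdiff_of_subset hYX]
      rw [Nat.cast_add, Nat.cast_sub (Finset.card_le_card hYX)]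
      simp
    have hY1 : (1 : ℝ) ≤ Y.card := by
      exact_mod_cast Finset.card_pos.2 ⟨i₀, hi₀⟩
    rw [hcard] at hl'
    nlinarith

end Nerve

end Run7.h646
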