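import Pool.Agent.Run7.h646.Conn

/-!
Compact connected sets of finite one-dimensional Hausdorff measure carry trees of almost the same
length through any finite set of their points.
-/

set_option autoImplicit false

namespace Run7.h646

open MeasureTheory Set Metric
open scoped ENNReal NNReal

theorem exists_cover {E : Type} [MetricSpace E] [MeasurableSpace E] [BorelSpace E] {W : Set E}
    (hW : IsCompact W) (hfin : Measure.hausdorffMeasure 1 W ≠ (⊤ : ℝ≥0∞)) {η ε : ℝ} (hη : 0 < η)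
    (hε : 0 < ε) :
    ∃ (K : Finset ℕ) (S : ℕ → Set E) (d : ℕ → ℝ), (∀ k, IsOpen (S k)) ∧
      W ⊆ ⋃ k ∈ K, S k ∧ (∀ k, ∀ a ∈ S k, ∀ b ∈ S k, dist a b ≤ d k) ∧ (∀ k, 0 ≤ d k) ∧
      (∀ k, d k ≤ η) ∧
      ∑ k ∈ K, d k ≤ (Measure.hausdorffMeasure 1 W).toReal + ε := by
  classical
  have h1 : (⨅ (t : ℕ → Set E) (_ : W ⊆ ⋃ n, t n) (_ : ∀ n, ediam (t n) ≤ ENNReal.ofReal (η / 2)),
      ∑' n, ⨆ _ : (t n).Nonempty, ediam (t n) ^ (1 : ℝ)) ≤ Measure.hausdorffMeasure 1 W := by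
    rw [Measure.hausdorffMeasure_apply]
    exact le_iSup₂_of_le (ENNReal.ofReal (η / 2)) (ENNReal.ofReal_pos.2 (by linarith)) le_rfl
  have h2 : (⨅ (t : ℕ → Set E) (_ : W ⊆ ⋃ n, t n)
      (_ : ∀ n, ediam (t n) ≤ ENNReal.ofReal (η / 2)),
      ∑' n, ⨆ _ : (t n).Nonempty, ediam (t n) ^ (1 : ℝ)) <
      Measure.hausdorffMeasure 1 W + ENNReal.ofReal (ε / 2) :=
    lt_of_le_of_lt h1 (ENNReal.lt_add_right hfin (ENNReal.ofReal_pos.2 (by linarith)).ne')
  simp only [iInf_lt_iff] at h2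
  obtain ⟨t, htW, htd, hts⟩ := h2
  have hsum : ∑' n, ediam (t n) ≤ ∑' n, ⨆ _ : (t n).Nonempty, ediam (t n) ^ (1 : ℝ) := by
    refine ENNReal.tsum_le_tsum fun n => ?_
    rcases (t n).eq_empty_or_nonempty with h | h
    · rw [h]; simp
    · simp [h]
  have hlt : ∑' n, ediam (t n) < Measure.hausdorffMeasure 1 W + ENNReal.ofReal (ε / 2) :=
    lt_of_le_of_lt hsum hts
  set w : ℕ → ℝ := fun n => min (η / 4) (ε / 4 * (1 / 2) ^ (n + 1)) with hw
  have hw0 : ∀ n, 0 < w n := fun n => lt_min (by linarith) (by positivity)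
  set S : ℕ → Set E := fun n => thickening (w n) (t n) with hS
  have htop : ∀ n, ediam (t n) ≠ ⊤ := fun n =>
    ne_top_of_le_ne_top ENNReal.ofReal_ne_top (htd n)
  set d : ℕ → ℝ := fun n => (ediam (t n)).toReal + 2 * w n with hd
  have hopen : ∀ k, IsOpen (S k) := fun k => isOpen_thickening
  have hcov : W ⊆ ⋃ n, S n :=
    htW.trans (iUnion_mono fun n => self_subset_thickening (hw0 n) _)
  obtain ⟨K, hK⟩ := hW.elim_finite_subcover S hopen hcov
  refine ⟨K, S, d, hopen, hK, ?_, ?_, ?_, ?_⟩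
  · intro k a ha b hb
    rw [hS] at ha hb
    obtain ⟨a', ha', haa⟩ := mem_thickening_iff.1 ha
    obtain ⟨b', hb', hbb⟩ := mem_thickening_iff.1 hb
    have h3 : dist a' b' ≤ (ediam (t k)).toReal := by
      have := edist_le_ediam_of_mem ha' hb'
      rw [edist_dist] at this
      exact (ENNReal.ofReal_le_iff_le_toReal (htop k)).1 this
    have h4 := dist_triangle4 a a' b' b
    rw [dist_comm b' b] at h4
    simp only [hd]
    linarith
  · intro k
    simp only [hd]
    have := hw0 k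
    positivity
  · intro k
    simp only [hd]
    have h5 : (ediam (t k)).toReal ≤ η / 2 := by
      have := ENNReal.toReal_mono ENNReal.ofReal_ne_top (htd k)
      rwa [ENNReal.toReal_ofReal (by linarith)] at this
    have : w k ≤ η / 4 := min_le_left _ _
    linarith
  · simp only [hd]
    rw [Finset.sum_add_distrib]
    have h6 : ∑ k ∈ K, (ediam (t k)).toReal ≤
        (Measure.hausdorffMeasure 1 W).toReal + ε / 2 := by
      rw [← ENNReal.toReal_sum (fun k _ => htop k)]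
      have : ∑ k ∈ K, ediam (t k) ≤ Measure.hausdorffMeasure 1 W + ENNReal.ofReal (ε / 2) :=
        (ENNReal.sum_le_tsum K).trans hlt.le
      have h7 := ENNReal.toReal_mono (by finiteness) this
      rwa [ENNReal.toReal_add hfin ENNReal.ofReal_ne_top,
        ENNReal.toReal_ofReal (by linarith)] at h7
    have h8 : ∑ k ∈ K, 2 * w k ≤ ε / 2 := by
      have hle : ∀ k ∈ K, 2 * w k ≤ ε / 2 * (1 / 2) ^ (k + 1) := by
        intro k _
        have : w k ≤ ε / 4 * (1 / 2) ^ (k + 1) := min_le_right _ _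
        linarith
      refine (Finset.sum_le_sum hle).trans ?_
      rw [← Finset.mul_sum]
      have hs : Summable (fun k : ℕ => ((1 : ℝ) / 2) ^ (k + 1)) := by
        simp_rw [pow_succ]
        exact summable_geometric_two.mul_right _
      have h9 : ∑ k ∈ K, ((1 : ℝ) / 2) ^ (k + 1) ≤ ∑' k : ℕ, ((1 : ℝ) / 2) ^ (k + 1) :=
        hs.sum_le_tsum K (fun k _ => by positivity)
      have h10 : ∑' k : ℕ, ((1 : ℝ) / 2) ^ (k + 1) = 1 := by
        simp_rw [pow_succ]
        rw [tsum_mul_right, tsum_geometric_two]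
        norm_num
      rw [h10] at h9
      nlinarith
    linarith

theorem exists_conn {E ι : Type} [MetricSpace E] [MeasurableSpace E] [BorelSpace E]
    [DecidableEq ι] {W : Set E} (hW : IsCompact W) (hc : IsConnected W)
    (hfin : Measure.hausdorffMeasure 1 W ≠ (⊤ : ℝ≥0∞)) (p : ι → E) (X : Finset ι)
    (hX : X.Nonempty) (hp : ∀ i ∈ X, p i ∈ W) {z : E} (hz : z ∈ W) {ε : ℝ} (hε : 0 < ε) :
    ∃ l, Conn p X z l ∧ l ≤ (Measure.hausdorffMeasure 1 W).toReal + ε := by
  classical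
  have hX1 : (1 : ℝ) ≤ X.card := by exact_mod_cast hX.card_pos
  set η : ℝ := ε / (2 * X.card) with hη
  have hη0 : 0 < η := by positivity
  obtain ⟨K, S, d, hopen, hcov, hdist, hd0, hdη, hsum⟩ :=
    exists_cover hW hfin hη0 (show 0 < ε / 2 by linarith)
  -- the sets of the cover that meet `W`
  obtain ⟨k₀, hk₀, hzk₀⟩ : ∃ k ∈ K, z ∈ S k := by
    have := hcov hz
    simpa using this
  -- subfamilies that carry trees
  set F : Finset (Finset ℕ) := K.powerset.filter
    (fun L => k₀ ∈ L ∧ Good ι (fun k => S k ∩ W) d η z L) with hF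
  have hne : F.Nonempty := by
    refine ⟨{k₀}, ?_⟩
    rw [hF, Finset.mem_filter, Finset.mem_powerset]
    refine ⟨by simpa using hk₀, by simp, ?_⟩
    exact good_singleton ⟨hzk₀, hz⟩ (fun a ha b hb => hdist _ a ha.1 b hb.1) (hdη _)
  obtain ⟨L, hLF, hLmax⟩ := F.exists_max_image Finset.card hne
  rw [hF, Finset.mem_filter, Finset.mem_powerset] at hLF
  obtain ⟨hLK, hk₀L, hLgood⟩ := hLF
  have hall : W ⊆ ⋃ k ∈ L, S k := by
    by_contra hcon
    rw [Set.not_subset] at hcon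
    obtain ⟨y, hyW, hyL⟩ := hcon
    obtain ⟨k₁, hk₁, hyk₁⟩ : ∃ k ∈ K, y ∈ S k := by
      have := hcov hyW
      simpa using this
    have hk₁L : k₁ ∉ L := by
      intro h
      apply hyL
      simp only [mem_iUnion]
      exact ⟨k₁, h, hyk₁⟩
    have hcn := hc.2 (⋃ k ∈ L, S k) (⋃ k ∈ K \ L, S k)
      (isOpen_biUnion fun k _ => hopen k) (isOpen_biUnion fun k _ => hopen k) (by
        intro x hx
        have := hcov hx
        simp only [mem_iUnion] at this
        obtain ⟨k, hk, hxk⟩ := this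
        by_cases hkL : k ∈ L
        · left; simp only [mem_iUnion]; exact ⟨k, hkL, hxk⟩
        · right; simp only [mem_iUnion]; exact ⟨k, Finset.mem_sdiff.2 ⟨hk, hkL⟩, hxk⟩)
      ⟨z, hz, by simp only [mem_iUnion]; exact ⟨k₀, hk₀L, hzk₀⟩⟩
      ⟨y, hyW, by simp only [mem_iUnion]; exact ⟨k₁, Finset.mem_sdiff.2 ⟨hk₁, hk₁L⟩, hyk₁⟩⟩
    obtain ⟨q, hqW, hq1, hq2⟩ := hcn
    simp only [mem_iUnion] at hq1 hq2
    obtain ⟨k, hkL, hqk⟩ := hq1
    obtain ⟨j, hj, hqj⟩ := hq2
    rw [Finset.mem_sdiff] at hj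
    have hg := good_insert (ι := ι) (S := fun k => S k ∩ W) hj.2 hLgood hkL ⟨hqk, hqW⟩ ⟨hqj, hqW⟩
      (fun a ha b hb => hdist _ a ha.1 b hb.1) (hdη _)
    have hmem : insert j L ∈ F := by
      rw [hF, Finset.mem_filter, Finset.mem_powerset]
      refine ⟨Finset.insert_subset hj.1 hLK, Finset.mem_insert_of_mem hk₀L, hg⟩
    have := hLmax _ hmem
    rw [Finset.card_insert_of_notMem hj.2] at this
    omega
  obtain ⟨l, hl, hl'⟩ := hLgood p X hX (by
    intro i hi
    have := hall (hp i hi)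
    simp only [mem_iUnion] at this
    obtain ⟨k, hk, hpk⟩ := this
    exact ⟨k, hk, hpk, hp i hi⟩)
  refine ⟨l, hl, hl'.trans ?_⟩
  have h1 : ∑ k ∈ L, d k ≤ ∑ k ∈ K, d k :=
    Finset.sum_le_sum_of_subset_of_nonneg hLK (fun k _ _ => hd0 k)
  have h2 : ((X.card : ℝ) - 1) * η ≤ ε / 2 := by
    have : (X.card : ℝ) * η = ε / 2 := by
      rw [hη]; field_simp
    nlinarith
  linarith

end Run7.h646
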