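import Pool.Agent.Run7.h646.Trees

/-!
Position of the terminals in the two trees.
-/

set_option autoImplicit false

namespace Run7.h646

open scoped InnerProductSpace ENNReal
open MeasureTheory Set

theorem seg_coord {x y z : E2} (h : z ∈ segment ℝ x y) :
    ∃ a b : ℝ, 0 ≤ a ∧ 0 ≤ b ∧ a + b = 1 ∧ (∀ k, z k = a * x k + b * y k) ∧ a • x + b • y = z := by
  obtain ⟨a, b, ha, hb, hab, h⟩ := h
  refine ⟨a, b, ha, hb, hab, fun k => ?_, h⟩
  rw [← h]
  simp

theorem sign_sx (i j : Fin 4) : (sx i : ℝ) * sx j = 1 ∨ (sx i : ℝ) * sx j = -1 := by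
  have : ∀ i j : Fin 4, sx i * sx j = 1 ∨ sx i * sx j = -1 := by decide
  rcases this i j with h | h
  · left; exact_mod_cast h
  · right; exact_mod_cast h

theorem sign_sy (i j : Fin 4) : (sy i : ℝ) * sy j = 1 ∨ (sy i : ℝ) * sy j = -1 := by
  have : ∀ i j : Fin 4, sy i * sy j = 1 ∨ sy i * sy j = -1 := by decide
  rcases this i j with h | h
  · left; exact_mod_cast h
  · right; exact_mod_cast h

theorem eq_of_signs {i j : Fin 4} (h1 : (sx i : ℝ) * sx j = 1) (h2 : (sy i : ℝ) * sy j = 1) :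
    i = j := by
  have h1' : sx i * sx j = 1 := by exact_mod_cast h1
  have h2' : sy i * sy j = 1 := by exact_mod_cast h2
  have key : ∀ i j : Fin 4, sx i * sx j = 1 → sy i * sy j = 1 → i = j := by decide
  exact key i j h1' h2'

/-- The linear functional that exposes `ww i` in the first tree. -/
noncomputable def ff (i : Fin 4) (x : E2) : ℝ := (sx i : ℝ) * x 0 + (sy i : ℝ) * c3 * x 1

/-- Its value at `ww i`. -/
noncomputable def fm : ℝ := 1 + 1 / 200 + c3 * (1 + c3 / 200)

theorem ff_ww (i j : Fin 4) : ff i (ww j) = (sx i : ℝ) * sx j * (1 + 1 / 200) +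
    (sy i : ℝ) * sy j * (c3 * (1 + c3 / 200)) := by
  unfold ff; rw [ww_0, ww_1]; ring

theorem ff_jS (i j : Fin 4) : ff i (jS j) = (sx i : ℝ) * sx j * bb := by
  unfold ff; rw [jS_0, jS_1]; ring

theorem ff_seg {i : Fin 4} {x y z : E2} {a b : ℝ} (h : ∀ k, z k = a * x k + b * y k) :
    ff i z = a * ff i x + b * ff i y := by
  unfold ff
  rw [h 0, h 1]
  ring

theorem ff_ww_self (i : Fin 4) : ff i (ww i) = fm := by
  rw [ff_ww]
  have h1 := sx_sq i
  have h2 := sy_sq i
  unfold fm
  linear_combination (1 + 1 / 200) * h1 + (c3 * (1 + c3 / 200)) * h2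

theorem ff_jS_lt (i j : Fin 4) : ff i (jS j) < fm := by
  rw [ff_jS]
  have hc := c3_pos
  have hb := bb_pos
  unfold fm
  have h3 : 0 < c3 * (1 + c3 / 200) := by positivity
  have h4 : bb < 1 := by unfold bb; linarith
  rcases sign_sx i j with h | h <;> rw [h] <;> linarith

theorem ff_ww_lt {i j : Fin 4} (hij : i ≠ j) : ff i (ww j) < fm := by
  rw [ff_ww]
  have hc := c3_pos
  have h3 : 0 < c3 * (1 + c3 / 200) := by positivity
  unfold fm
  rcases sign_sx i j with h1 | h1 <;> rcases sign_sy i j with h2 | h2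
  · exact absurd (eq_of_signs h1 h2) hij
  all_goals rw [h1, h2]; linarith

theorem ff_lt {i : Fin 4} {x : E2} (hx : x ∈ SS) (hne : x ≠ ww i) : ff i x < fm := by
  rcases hx with hx | hx
  · obtain ⟨j, hx⟩ := mem_iUnion.1 hx
    obtain ⟨a, b, ha, hb, hab, hk, hz⟩ := seg_coord hx
    rw [ff_seg hk]
    have h2 := ff_jS_lt i j
    by_cases hij : i = j
    · subst hij
      have hb' : 0 < b := by
        rcases hb.lt_or_eq with h | h
        · exact h
        · exfalso
          apply hne
          have ha1 : a = 1 := by linarith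
          rw [← hz, ← h, ha1]
          simp
      rw [ff_ww_self]
      have : a = 1 - b := by linarith
      subst this
      nlinarith
    · have h1 := ff_ww_lt hij
      have : a = 1 - b := by linarith
      subst this
      rcases hb.lt_or_eq with h | h
      · nlinarith
      · rw [← h]; linarith
  · obtain ⟨a, b, ha, hb, hab, hk, hz⟩ := seg_coord hx
    rw [ff_seg hk]
    have h1 := ff_jS_lt i 0
    have h2 := ff_jS_lt i 1
    have : a = 1 - b := by linarith
    subst this
    rcases hb.lt_or_eq with h | h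
    · nlinarith
    · rw [← h]; linarith

theorem ww_not_inner (i : Fin 4) :
    ¬ ∃ x y : E2, x ≠ y ∧ segment ℝ x y ⊆ SS ∧ ww i ∈ openSegment ℝ x y := by
  rintro ⟨x, y, hxy, hs, a, b, ha, hb, hab, h⟩
  have hx : x ∈ SS := hs (left_mem_segment _ _ _)
  have hy : y ∈ SS := hs (right_mem_segment _ _ _)
  have hk : ∀ k, ww i k = a * x k + b * y k := fun k => by rw [← h]; simp
  have h1 := ff_seg (i := i) hk
  rw [ff_ww_self] at h1
  have hle : ∀ u ∈ SS, ff i u ≤ fm := by
    intro u hu
    by_cases hu' : u = ww i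
    · rw [hu', ff_ww_self]
    · exact (ff_lt hu hu').le
  by_cases hxw : x = ww i
  · have hyw : y ≠ ww i := fun h => hxy (hxw.trans h.symm)
    have h2 := ff_lt hy hyw
    have h3 := hle x hx
    have : a = 1 - b := by linarith
    subst this
    nlinarith
  · have h2 := ff_lt hx hxw
    have h3 := hle y hy
    have : b = 1 - a := by linarith
    subst this
    nlinarith

/-- The functional that separates the two branches of the second tree at a corner. -/
noncomputable def gg (i : Fin 4) (x : E2) : ℝ := (sx i : ℝ) * x 0 - (sy i : ℝ) * x 1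

theorem gg_near {i : Fin 4} {x : E2} (hx : x ∈ TT) (h0 : 1 / 2 < (sx i : ℝ) * x 0)
    (h1 : 1 / 2 < (sy i : ℝ) * x 1) : gg i x ≤ 0 ∧ (gg i x = 0 → x = vv i) := by
  have hb' := bb_pos
  have hc := c3_gt
  rcases hx with hx | hx
  · obtain ⟨j, hx⟩ := mem_iUnion.1 hx
    rcases hx with hx | hx
    · obtain ⟨a, b, ha, hb, hab, hk, hz⟩ := seg_coord hx
      have k0 := hk 0
      have k1 := hk 1
      rw [ww_0, vv_0] at k0
      rw [ww_1, vv_1] at k1
      have e0 : (sx i : ℝ) * x 0 = (sx i : ℝ) * sx j * (1 + a / 200) := by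
        rw [k0]
        have : b = 1 - a := by linarith
        rw [this]; ring
      have e1 : (sy i : ℝ) * x 1 = (sy i : ℝ) * sy j * (1 + a * c3 / 200) := by
        rw [k1]
        have : b = 1 - a := by linarith
        rw [this]; ring
      have hac : 0 ≤ a * c3 := by positivity
      have s0 : (sx i : ℝ) * sx j = 1 := by
        rcases sign_sx i j with h | h
        · exact h
        · rw [e0, h] at h0; linarith
      have s1 : (sy i : ℝ) * sy j = 1 := by
        rcases sign_sy i j with h | h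
        · exact h
        · rw [e1, h] at h1; linarith
      have hij := eq_of_signs s0 s1
      subst hij
      unfold gg
      rw [e0, e1, s0, s1]
      refine ⟨by nlinarith, fun h => ?_⟩
      have ha0 : a = 0 := by nlinarith
      have hb1 : b = 1 := by linarith
      rw [← hz, ha0, hb1]
      simp
    · obtain ⟨a, b, ha, hb, hab, hk, hz⟩ := seg_coord hx
      have k0 := hk 0
      have k1 := hk 1
      rw [vv_0, jT_0] at k0
      rw [vv_1, jT_1] at k1
      have e0 : (sx i : ℝ) * x 0 = (sx i : ℝ) * sx j * a := by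
        rw [k0]; ring
      have e1 : (sy i : ℝ) * x 1 = (sy i : ℝ) * sy j * (a + b * bb) := by
        rw [k1]; ring
      have hbb : 0 ≤ b * bb := by positivity
      have s0 : (sx i : ℝ) * sx j = 1 := by
        rcases sign_sx i j with h | h
        · exact h
        · rw [e0, h] at h0; linarith
      have s1 : (sy i : ℝ) * sy j = 1 := by
        rcases sign_sy i j with h | h
        · exact h
        · rw [e1, h] at h1; linarith
      have hij := eq_of_signs s0 s1
      subst hij
      unfold gg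
      rw [e0, e1, s0, s1]
      refine ⟨by nlinarith, fun h => ?_⟩
      have hb0 : b * bb = 0 := by nlinarith
      have hb0' : b = 0 := by
        rcases mul_eq_zero.1 hb0 with h | h
        · exact h
        · exact absurd h hb'.ne'
      have ha1 : a = 1 := by linarith
      rw [← hz, hb0', ha1]
      simp
  · obtain ⟨a, b, ha, hb, hab, hk, hz⟩ := seg_coord hx
    have k0 := hk 0
    rw [jT_0, jT_0] at k0
    rw [k0] at h0
    norm_num at h0

theorem TT_bound {x : E2} (hx : x ∈ TT) (k : Fin 2) : |x k| ≤ 2 := by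
  have hc := c3_lt
  have hc' := c3_pos
  have hb' := bb_pos
  have hb1 : bb < 1 := by unfold bb; linarith
  have hs : ∀ j : Fin 4, |(sx j : ℝ)| = 1 := fun j => by
    rw [← sq_eq_sq₀ (abs_nonneg _) zero_le_one, sq_abs, sx_sq, one_pow]
  have hs' : ∀ j : Fin 4, |(sy j : ℝ)| = 1 := fun j => by
    rw [← sq_eq_sq₀ (abs_nonneg _) zero_le_one, sq_abs, sy_sq, one_pow]
  have hw : ∀ j, |ww j k| ≤ 2 := by
    intro j
    fin_cases k
    · simp only [Fin.zero_eta, ww_0, abs_mul, hs]; rw [abs_of_pos (by norm_num)]; norm_num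
    · simp only [Fin.mk_one, ww_1, abs_mul, hs']; rw [abs_of_pos (by positivity)]; linarith
  have hv : ∀ j, |vv j k| ≤ 2 := by
    intro j
    fin_cases k
    · simp only [Fin.zero_eta, vv_0, hs]; norm_num
    · simp only [Fin.mk_one, vv_1, hs']; norm_num
  have hj : ∀ j, |jT j k| ≤ 2 := by
    intro j
    fin_cases k
    · simp only [Fin.zero_eta, jT_0]; norm_num
    · simp only [Fin.mk_one, jT_1, abs_mul, hs', abs_of_pos hb']; linarith
  have key : ∀ y z : E2, |y k| ≤ 2 → |z k| ≤ 2 → x ∈ segment ℝ y z → |x k| ≤ 2 := by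
    intro y z hy hz hxs
    obtain ⟨a, b, ha, hb, hab, hk, -⟩ := seg_coord hxs
    rw [hk k, abs_le]
    rw [abs_le] at hy hz
    constructor <;> nlinarith
  rcases hx with hx | hx
  · obtain ⟨j, hx⟩ := mem_iUnion.1 hx
    rcases hx with hx | hx
    · exact key _ _ (hw j) (hv j) hx
    · exact key _ _ (hv j) (hj j) hx
  · exact key _ _ (hj 0) (hj 2) hx

theorem gg_vv (i : Fin 4) : gg i (vv i) = 0 := by
  unfold gg
  rw [vv_0, vv_1]
  have h1 := sx_sq i
  have h2 := sy_sq i
  linear_combination h1 - h2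

theorem vv_not_inner (i : Fin 4) :
    ¬ ∃ x y : E2, x ≠ y ∧ segment ℝ x y ⊆ TT ∧ vv i ∈ openSegment ℝ x y := by
  rintro ⟨x, y, hxy, hs, hv⟩
  have hvs : vv i ∈ segment ℝ x y := openSegment_subset_segment _ _ _ hv
  obtain ⟨a, b, ha, hb, hab, h⟩ := hv
  have hk : ∀ k, vv i k = a * x k + b * y k := fun k => by rw [← h]; simp
  -- points close to the corner
  have key : ∀ u ∈ segment ℝ x y, gg i u ≤ 0 ∧ (gg i u = 0 → u = vv i) := by
    intro u hu
    set u' : E2 := (9 / 10 : ℝ) • vv i + (1 / 10 : ℝ) • u with hu'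
    have hmem : u' ∈ segment ℝ x y :=
      (convex_segment x y) hvs hu (by norm_num) (by norm_num) (by norm_num)
    have hc0 : u' 0 = 9 / 10 * vv i 0 + 1 / 10 * u 0 := by rw [hu']; simp
    have hc1 : u' 1 = 9 / 10 * vv i 1 + 1 / 10 * u 1 := by rw [hu']; simp
    have b0 := TT_bound (hs hu) 0
    have b1 := TT_bound (hs hu) 1
    rw [vv_0] at hc0
    rw [vv_1] at hc1
    have e1 := sx_sq i
    have e2 := sy_sq i
    have a0 : -2 ≤ (sx i : ℝ) * u 0 := by
      have : |(sx i : ℝ) * u 0| ≤ 2 := by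
        rw [abs_mul]
        have : |(sx i : ℝ)| = 1 := by
          rw [← sq_eq_sq₀ (abs_nonneg _) zero_le_one, sq_abs, sx_sq, one_pow]
        rw [this, one_mul]
        exact b0
      exact (abs_le.1 this).1
    have a1 : -2 ≤ (sy i : ℝ) * u 1 := by
      have : |(sy i : ℝ) * u 1| ≤ 2 := by
        rw [abs_mul]
        have : |(sy i : ℝ)| = 1 := by
          rw [← sq_eq_sq₀ (abs_nonneg _) zero_le_one, sq_abs, sy_sq, one_pow]
        rw [this, one_mul]
        exact b1
      exact (abs_le.1 this).1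
    have hn := gg_near (i := i) (hs hmem) (by rw [hc0]; nlinarith) (by rw [hc1]; nlinarith)
    have hg : gg i u' = 1 / 10 * gg i u := by
      unfold gg
      rw [hc0, hc1]
      linear_combination 9 / 10 * e1 - 9 / 10 * e2
    rw [hg] at hn
    refine ⟨by linarith [hn.1], fun h0 => ?_⟩
    have h3 := hn.2 (by rw [h0]; ring)
    have h4 : (1 / 10 : ℝ) • u = (1 / 10 : ℝ) • vv i := by
      have : (9 / 10 : ℝ) • vv i + (1 / 10 : ℝ) • u =
          (9 / 10 : ℝ) • vv i + (1 / 10 : ℝ) • vv i := by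
        rw [← hu', h3, ← add_smul]
        norm_num
      exact add_left_cancel this
    exact smul_right_injective _ (by norm_num : (1 / 10 : ℝ) ≠ 0) h4
  have kx := key x (left_mem_segment _ _ _)
  have ky := key y (right_mem_segment _ _ _)
  have hsum : a * gg i x + b * gg i y = 0 := by
    rw [← gg_vv i]
    unfold gg
    rw [hk 0, hk 1]
    ring
  have hx0 : gg i x = 0 := by
    by_contra hne
    have : gg i x < 0 := lt_of_le_of_ne kx.1 hne
    nlinarith [ky.1]
  have hy0 : gg i y = 0 := by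
    by_contra hne
    have : gg i y < 0 := lt_of_le_of_ne ky.1 hne
    nlinarith [kx.1]
  exact hxy ((kx.2 hx0).trans (ky.2 hy0).symm)

theorem SS_ne_TT : SS ≠ TT := by
  intro h
  have h1 : jT 0 ∈ TT := Or.inr (left_mem_segment _ _ _)
  rw [← h] at h1
  have hb' := bb_pos
  rcases h1 with hx | hx
  · obtain ⟨j, hx⟩ := mem_iUnion.1 hx
    obtain ⟨a, b, ha, hb, hab, hk, -⟩ := seg_coord hx
    have k0 := hk 0
    rw [jT_0, ww_0, jS_0] at k0
    have e := sx_sq j
    have h2 : a * (1 + 1 / 200) + b * bb = 0 := by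
      have : (sx j : ℝ) * (a * (1 + 1 / 200) + b * bb) = 0 := by linarith
      rcases mul_eq_zero.1 this with h | h
      · rw [h] at e; norm_num at e
      · exact h
    have hbb : 0 ≤ b * bb := by positivity
    have ha0 : a = 0 := by nlinarith
    have : b * bb = 0 := by rw [ha0] at h2; linarith
    rcases mul_eq_zero.1 this with h | h
    · linarith
    · linarith
  · obtain ⟨a, b, ha, hb, hab, hk, -⟩ := seg_coord hx
    have k1 := hk 1
    rw [jT_1, jS_1, jS_1] at k1
    have : (sy 0 : ℝ) = 1 := by simp [sy]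
    rw [this] at k1
    linarith

theorem aa_injective : Function.Injective aa := by
  intro l l' h
  have hc := c3_pos
  have e1 := sx_sq l.1
  have key : ∀ l : Lab, ∃ s t : ℝ, 1 ≤ s ∧ 1 ≤ t ∧ aa l 0 = (sx l.1 : ℝ) * s ∧
      aa l 1 = (sy l.1 : ℝ) * t ∧ (l.2 = true → s = 1 + 1 / 200) ∧ (l.2 = false → s = 1) := by
    rintro ⟨i, b⟩
    cases b
    · exact ⟨1, 1, le_rfl, le_rfl, by simp [aa, vv_0], by simp [aa, vv_1], by simp, by simp⟩
    · exact ⟨1 + 1 / 200, 1 + c3 / 200, by norm_num, by linarith [c3_pos], by simp [aa, ww_0],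
        by simp [aa, ww_1], by simp, by simp⟩
  obtain ⟨s, t, hs, ht, h0, h1, hb1, hb2⟩ := key l
  obtain ⟨s', t', hs', ht', h0', h1', hb1', hb2'⟩ := key l'
  rw [h] at h0 h1
  rw [h0'] at h0
  rw [h1'] at h1
  have sx1 : (sx l.1 : ℝ) * sx l'.1 = 1 := by
    rcases sign_sx l.1 l'.1 with h | h
    · exact h
    · have e := sx_sq l.1
      have : (sx l.1 : ℝ) * (sx l'.1 * s') = sx l.1 * (sx l.1 * s) := by rw [h0]
      have h2 : ((sx l.1 : ℝ) * sx l'.1) * s' = (sx l.1 : ℝ) ^ 2 * s := by linarith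
      rw [h, e] at h2
      linarith
  have sy1 : (sy l.1 : ℝ) * sy l'.1 = 1 := by
    rcases sign_sy l.1 l'.1 with h | h
    · exact h
    · have e := sy_sq l.1
      have : (sy l.1 : ℝ) * (sy l'.1 * t') = sy l.1 * (sy l.1 * t) := by rw [h1]
      have h2 : ((sy l.1 : ℝ) * sy l'.1) * t' = (sy l.1 : ℝ) ^ 2 * t := by linarith
      rw [h, e] at h2
      linarith
  have hij := eq_of_signs sx1 sy1
  have hss : s' = s := by
    have : (sx l.1 : ℝ) * (sx l'.1 * s') = sx l.1 * (sx l.1 * s) := by rw [h0]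
    have h2 : ((sx l.1 : ℝ) * sx l'.1) * s' = (sx l.1 : ℝ) ^ 2 * s := by linarith
    rw [sx1, e1] at h2
    linarith
  refine Prod.ext hij ?_
  cases hl : l.2 <;> cases hl' : l'.2
  · rfl
  · have := hb2 hl; have := hb1' hl'; linarith
  · have := hb1 hl; have := hb2' hl'; linarith
  · rfl

theorem mm_injective : Function.Injective mm := by
  intro l l' h
  have hc := c3_pos
  have hc2 := c2_pos
  have hc2' := c2_lt
  have e1 := sx_sq l.1
  have key : ∀ l : Lab, ∃ s t : ℝ, 1 / 2 ≤ s ∧ 1 / 2 ≤ t ∧ mm l 0 = (sx l.1 : ℝ) * s ∧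
      mm l 1 = (sy l.1 : ℝ) * t ∧ (l.2 = true → s = 1 + 11 / 2000) ∧
      (l.2 = false → s = 1 + c2 / 2000) := by
    rintro ⟨i, b⟩
    cases b
    · exact ⟨1 + c2 / 2000, 1 - c2 / 2000, by linarith, by linarith, by simp [mm, mv_0],
        by simp [mm, mv_1], by simp, by simp⟩
    · exact ⟨1 + 11 / 2000, 1 + 11 * c3 / 2000, by norm_num, by linarith [c3_pos],
        by simp [mm, mw_0], by simp [mm, mw_1], by simp, by simp⟩
  obtain ⟨s, t, hs, ht, h0, h1, hb1, hb2⟩ := key l
  obtain ⟨s', t', hs', ht', h0', h1', hb1', hb2'⟩ := key l'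
  rw [h] at h0 h1
  rw [h0'] at h0
  rw [h1'] at h1
  have sx1 : (sx l.1 : ℝ) * sx l'.1 = 1 := by
    rcases sign_sx l.1 l'.1 with h | h
    · exact h
    · have e := sx_sq l.1
      have : (sx l.1 : ℝ) * (sx l'.1 * s') = sx l.1 * (sx l.1 * s) := by rw [h0]
      have h2 : ((sx l.1 : ℝ) * sx l'.1) * s' = (sx l.1 : ℝ) ^ 2 * s := by linarith
      rw [h, e] at h2
      linarith
  have sy1 : (sy l.1 : ℝ) * sy l'.1 = 1 := by
    rcases sign_sy l.1 l'.1 with h | h
    · exact h
    · have e := sy_sq l.1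
      have : (sy l.1 : ℝ) * (sy l'.1 * t') = sy l.1 * (sy l.1 * t) := by rw [h1]
      have h2 : ((sy l.1 : ℝ) * sy l'.1) * t' = (sy l.1 : ℝ) ^ 2 * t := by linarith
      rw [h, e] at h2
      linarith
  have hij := eq_of_signs sx1 sy1
  have hss : s' = s := by
    have : (sx l.1 : ℝ) * (sx l'.1 * s') = sx l.1 * (sx l.1 * s) := by rw [h0]
    have h2 : ((sx l.1 : ℝ) * sx l'.1) * s' = (sx l.1 : ℝ) ^ 2 * s := by linarith
    rw [sx1, e1] at h2
    linarith
  refine Prod.ext hij ?_
  cases hl : l.2 <;> cases hl' : l'.2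
  · rfl
  · have := hb2 hl; have := hb1' hl'; linarith
  · have := hb1 hl; have := hb2' hl'; linarith
  · rfl

theorem dist_aa_mm (l : Lab) : dist (aa l) (mm l) ≤ 1 / 1000 := by
  rcases l with ⟨i, b⟩
  cases b
  · simp only [aa, mm]
    have := dist_mv_vv i
    rw [dist_comm] at this
    simpa using this.le
  · simp only [aa, mm, if_true]
    refine le_of_abs_le (abs_le_of_sq_le_sq ?_ (by norm_num))
    rw [dist2_sq, ww_0, ww_1, mw_0, mw_1]
    have e1 := sx_sq i
    have e2 := sy_sq i
    have e3 := c3_sq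
    have e4 : ((sx i : ℝ) * (1 + 1 / 200) - (sx i : ℝ) * (1 + 11 / 2000)) ^ 2 =
        (1 / 2000) ^ 2 := by
      linear_combination (1 / 2000) ^ 2 * e1
    have e5 : ((sy i : ℝ) * (1 + c3 / 200) - (sy i : ℝ) * (1 + 11 * c3 / 2000)) ^ 2 =
        3 * (1 / 2000) ^ 2 := by
      linear_combination (c3 / 2000) ^ 2 * e2 + (1 / 2000) ^ 2 * e3
    rw [e4, e5]
    norm_num

theorem aa_mem_SS (l : Lab) : aa l ∈ SS := by
  rcases l with ⟨i, b⟩
  cases b
  · simpa [aa] using vv_mem_SS i
  · simpa [aa] using ww_mem_SS i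

theorem aa_mem_TT (l : Lab) : aa l ∈ TT := by
  rcases l with ⟨i, b⟩
  cases b
  · simpa [aa] using vv_mem_TT i
  · simpa [aa] using ww_mem_TT i

end Run7.h646
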