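import Pool.Agent.Run7.h646.Conn

/-!
Lower bounds for trees with four labels, by two systems of unit vectors.
-/

set_option autoImplicit false

namespace Run7.h646

open scoped InnerProductSpace

variable {V : Type} [NormedAddCommGroup V] [InnerProductSpace ℝ V]

/-- The linear lower bound attached to the vectors `u`. -/
def SB (u : Fin 4 → V) (p : Fin 4 → V) (X : Finset (Fin 4)) (z : V) (l : ℝ) : Prop :=
  ∑ i ∈ X, ⟪u i, p i - z⟫_ℝ ≤ l

theorem SB.move {u p : Fin 4 → V} {X : Finset (Fin 4)} {z : V} {l : ℝ} (h : SB u p X z l)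
    (hu : ‖∑ i ∈ X, u i‖ ≤ 1) (z' : V) : SB u p X z' (l + dist z z') := by
  unfold SB at *
  have h1 : ∑ i ∈ X, ⟪u i, p i - z'⟫_ℝ = ∑ i ∈ X, ⟪u i, p i - z⟫_ℝ + ⟪∑ i ∈ X, u i, z - z'⟫_ℝ := by
    rw [sum_inner, ← Finset.sum_add_distrib]
    refine Finset.sum_congr rfl fun i _ => ?_
    rw [← inner_add_right]
    congr 1
    abel
  have h2 : ⟪∑ i ∈ X, u i, z - z'⟫_ℝ ≤ dist z z' := by
    refine (real_inner_le_norm _ _).trans ?_
    rw [dist_eq_norm]
    have := norm_nonneg (z - z')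
    nlinarith
  rw [h1]
  linarith

theorem SB.join {u p : Fin 4 → V} {X Y : Finset (Fin 4)} {z : V} {l l' : ℝ} (h : SB u p X z l)
    (h' : SB u p Y z l') (hd : Disjoint X Y) : SB u p (X ∪ Y) z (l + l') := by
  unfold SB at *
  rw [Finset.sum_union hd]
  linarith

/-- Admissible sets for the first system. -/
def okS (X : Finset (Fin 4)) : Prop := X ≠ {0, 1} ∧ X ≠ {2, 3}

/-- Admissible sets for the second system. -/
def okT (X : Finset (Fin 4)) : Prop := X ≠ {0, 3} ∧ X ≠ {1, 2}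

instance : DecidablePred okS := fun X => by unfold okS; infer_instance
instance : DecidablePred okT := fun X => by unfold okT; infer_instance

theorem comb_small : ∀ X Y : Finset (Fin 4), Disjoint X Y → (X ∪ Y).card ≤ 2 →
    (X.card ≤ 2 ∧ Y.card ≤ 2) ∧ (okS (X ∪ Y) → okS X ∧ okS Y) ∧
      (okT (X ∪ Y) → okT X ∧ okT Y) := by
  decide +kernel

theorem comb_big : ∀ X Y : Finset (Fin 4), Disjoint X Y → 2 < (X ∪ Y).card →
    (2 < X.card ∧ Y.card ≤ 2 ∧ okS Y ∧ okT Y) ∨ (2 < Y.card ∧ X.card ≤ 2 ∧ okS X ∧ okT X) ∨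
      (X.card ≤ 2 ∧ Y.card ≤ 2 ∧ ((okS X ∧ okS Y) ∨ (okT X ∧ okT Y))) := by
  decide +kernel

theorem ok_big : ∀ X : Finset (Fin 4), 2 < X.card → okS X ∧ okT X := by
  decide +kernel

theorem four_aux {u u' p : Fin 4 → V} (hu : ∀ X, okS X → ‖∑ i ∈ X, u i‖ ≤ 1)
    (hu' : ∀ X, okT X → ‖∑ i ∈ X, u' i‖ ≤ 1) {X : Finset (Fin 4)} {z : V} {l : ℝ}
    (h : Conn p X z l) :
    (X.card ≤ 2 → (okS X → SB u p X z l) ∧ (okT X → SB u' p X z l)) ∧
      (2 < X.card → SB u p X z l ∨ SB u' p X z l) := by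
  induction h with
  | nil z =>
    refine ⟨fun _ => ⟨fun _ => ?_, fun _ => ?_⟩, fun h => ?_⟩
    · simp [SB]
    · simp [SB]
    · simp at h
  | lab j =>
    refine ⟨fun _ => ⟨fun _ => ?_, fun _ => ?_⟩, fun h => ?_⟩
    · simp [SB]
    · simp [SB]
    · simp at h
  | @move X z l z' _ ih =>
    refine ⟨fun hc => ⟨fun ho => ?_, fun ho => ?_⟩, fun hc => ?_⟩
    · exact ((ih.1 hc).1 ho).move (hu X ho) z'
    · exact ((ih.1 hc).2 ho).move (hu' X ho) z'
    · rcases ih.2 hc with h | h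
      · exact Or.inl (h.move (hu X (ok_big X hc).1) z')
      · exact Or.inr (h.move (hu' X (ok_big X hc).2) z')
  | @join X Y z l l' _ _ hd ih1 ih2 =>
    refine ⟨fun hc => ?_, fun hc => ?_⟩
    · obtain ⟨⟨hX, hY⟩, hS, hT⟩ := comb_small X Y hd hc
      refine ⟨fun ho => ?_, fun ho => ?_⟩
      · exact ((ih1.1 hX).1 (hS ho).1).join ((ih2.1 hY).1 (hS ho).2) hd
      · exact ((ih1.1 hX).2 (hT ho).1).join ((ih2.1 hY).2 (hT ho).2) hd
    · rcases comb_big X Y hd hc with ⟨hX, hY, hS, hT⟩ | ⟨hY, hX, hS, hT⟩ | ⟨hX, hY, hST⟩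
      · rcases ih1.2 hX with h | h
        · exact Or.inl (h.join ((ih2.1 hY).1 hS) hd)
        · exact Or.inr (h.join ((ih2.1 hY).2 hT) hd)
      · rcases ih2.2 hY with h | h
        · exact Or.inl (((ih1.1 hX).1 hS).join h hd)
        · exact Or.inr (((ih1.1 hX).2 hT).join h hd)
      · rcases hST with ⟨h1, h2⟩ | ⟨h1, h2⟩
        · exact Or.inl (((ih1.1 hX).1 h1).join ((ih2.1 hY).1 h2) hd)
        · exact Or.inr (((ih1.1 hX).2 h1).join ((ih2.1 hY).2 h2) hd)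

/-- A tree through four points is at least as long as one of the two linear bounds. -/
theorem four {u u' p : Fin 4 → V} (hu : ∀ X, okS X → ‖∑ i ∈ X, u i‖ ≤ 1)
    (hu' : ∀ X, okT X → ‖∑ i ∈ X, u' i‖ ≤ 1) (h0 : ∑ i, u i = 0) (h0' : ∑ i, u' i = 0)
    {z : V} {l : ℝ} (h : Conn p Finset.univ z l) :
    ∑ i, ⟪u i, p i⟫_ℝ ≤ l ∨ ∑ i, ⟪u' i, p i⟫_ℝ ≤ l := by
  have key : ∀ w : Fin 4 → V, ∑ i, w i = 0 → SB w p Finset.univ z l →
      ∑ i, ⟪w i, p i⟫_ℝ ≤ l := by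
    intro w hw hs
    unfold SB at hs
    simp only [inner_sub_right, Finset.sum_sub_distrib] at hs
    rw [← sum_inner, hw, inner_zero_left, sub_zero] at hs
    exact hs
  rcases (four_aux hu hu' h).2 (by decide) with h | h
  · exact Or.inl (key u h0 h)
  · exact Or.inr (key u' h0' h)

end Run7.h646
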