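import Pool.Agent.Run7.h646.Cluster
import Pool.Agent.Run7.h646.Extract

/-!
The square with four tails: the constants and the lower bound.
-/

set_option autoImplicit false

namespace Run7.h646

open scoped InnerProductSpace ENNReal
open MeasureTheory

/-- The Euclidean plane. -/
abbrev E2 : Type := EuclideanSpace ℝ (Fin 2)

theorem inner2 (x y : E2) : ⟪x, y⟫_ℝ = x 0 * y 0 + x 1 * y 1 := by
  simp [PiLp.inner_apply, Fin.sum_univ_two, mul_comm]

theorem norm2_sq (x : E2) : ‖x‖ ^ 2 = x 0 ^ 2 + x 1 ^ 2 := by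
  rw [EuclideanSpace.norm_sq_eq, Fin.sum_univ_two]
  simp

theorem dist2_sq (x y : E2) : dist x y ^ 2 = (x 0 - y 0) ^ 2 + (x 1 - y 1) ^ 2 := by
  rw [dist_eq_norm, norm2_sq]
  simp

theorem dist_lin {a b : ℝ} (h : a ^ 2 + b ^ 2 ≤ 1) (x y : E2) :
    a * (x 0 - y 0) + b * (x 1 - y 1) ≤ dist x y := by
  have h1 := dist2_sq x y
  refine le_of_abs_le (abs_le_of_sq_le_sq ?_ dist_nonneg)
  rw [h1]
  nlinarith [sq_nonneg (a * (x 1 - y 1) - b * (x 0 - y 0)), sq_nonneg (x 0 - y 0),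
    sq_nonneg (x 1 - y 1)]

/-- Signs of the coordinates of the corners. -/
def sx : Fin 4 → ℤ := ![1, -1, -1, 1]
/-- Signs of the coordinates of the corners. -/
def sy : Fin 4 → ℤ := ![1, 1, -1, -1]

theorem sx_sq (i : Fin 4) : (sx i : ℝ) ^ 2 = 1 := by
  fin_cases i <;> simp [sx]
theorem sy_sq (i : Fin 4) : (sy i : ℝ) ^ 2 = 1 := by
  fin_cases i <;> simp [sy]

/-- The constants. -/
noncomputable def c3 : ℝ := Real.sqrt 3
/-- The constants. -/
noncomputable def c2 : ℝ := Real.sqrt 2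

theorem c3_sq : c3 ^ 2 = 3 := Real.sq_sqrt (by norm_num)
theorem c2_sq : c2 ^ 2 = 2 := Real.sq_sqrt (by norm_num)
theorem c3_pos : 0 < c3 := Real.sqrt_pos.2 (by norm_num)
theorem c2_pos : 0 < c2 := Real.sqrt_pos.2 (by norm_num)
theorem c3_lt : c3 < 1.7321 := by
  unfold c3
  rw [Real.sqrt_lt' (by norm_num)]
  norm_num
theorem c3_gt : 1.7320 < c3 := by
  unfold c3
  rw [Real.lt_sqrt (by norm_num)]
  norm_num
theorem c2_lt : c2 < 1.4143 := by
  unfold c2
  rw [Real.sqrt_lt' (by norm_num)]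
  norm_num
theorem c2_gt : 1.4142 < c2 := by
  unfold c2
  rw [Real.lt_sqrt (by norm_num)]
  norm_num

/-- Directions of the tails. -/
noncomputable def uu (i : Fin 4) : E2 := !₂[(sx i : ℝ) / 2, (sy i : ℝ) * c3 / 2]
/-- Directions of the legs of the second tree. -/
noncomputable def uu' (i : Fin 4) : E2 := !₂[(sx i : ℝ) * c3 / 2, (sy i : ℝ) / 2]
/-- The corners. -/
noncomputable def vv (i : Fin 4) : E2 := !₂[(sx i : ℝ), (sy i : ℝ)]
/-- Ends of the tails. -/
noncomputable def ww (i : Fin 4) : E2 := vv i + (1 / 100 : ℝ) • uu i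
/-- Centres of the balls at the ends of the tails. -/
noncomputable def mw (i : Fin 4) : E2 := ww i + (1 / 1000 : ℝ) • uu i
/-- Centres of the balls at the corners. -/
noncomputable def mv (i : Fin 4) : E2 :=
  !₂[(sx i : ℝ) * (1 + c2 / 2000), (sy i : ℝ) * (1 - c2 / 2000)]

/-- The terminals. -/
noncomputable def aa (l : Lab) : E2 := if l.2 then ww l.1 else vv l.1
/-- The centres of the balls. -/
noncomputable def mm (l : Lab) : E2 := if l.2 then mw l.1 else mv l.1

theorem uu_0 (i : Fin 4) : uu i 0 = (sx i : ℝ) / 2 := by simp [uu]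
theorem uu_1 (i : Fin 4) : uu i 1 = (sy i : ℝ) * c3 / 2 := by simp [uu]
theorem uu'_0 (i : Fin 4) : uu' i 0 = (sx i : ℝ) * c3 / 2 := by simp [uu']
theorem uu'_1 (i : Fin 4) : uu' i 1 = (sy i : ℝ) / 2 := by simp [uu']
theorem vv_0 (i : Fin 4) : vv i 0 = (sx i : ℝ) := by simp [vv]
theorem vv_1 (i : Fin 4) : vv i 1 = (sy i : ℝ) := by simp [vv]
theorem ww_0 (i : Fin 4) : ww i 0 = (sx i : ℝ) * (1 + 1 / 200) := by
  simp [ww, uu_0, vv_0]; ring
theorem ww_1 (i : Fin 4) : ww i 1 = (sy i : ℝ) * (1 + c3 / 200) := by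
  simp [ww, uu_1, vv_1]; ring
theorem mw_0 (i : Fin 4) : mw i 0 = (sx i : ℝ) * (1 + 11 / 2000) := by
  simp [mw, uu_0, ww_0]; ring
theorem mw_1 (i : Fin 4) : mw i 1 = (sy i : ℝ) * (1 + 11 * c3 / 2000) := by
  simp [mw, uu_1, ww_1]; ring
theorem mv_0 (i : Fin 4) : mv i 0 = (sx i : ℝ) * (1 + c2 / 2000) := by simp [mv]
theorem mv_1 (i : Fin 4) : mv i 1 = (sy i : ℝ) * (1 - c2 / 2000) := by simp [mv]

/-- The common length of the two trees. -/
noncomputable def LL : ℝ := 2 + 2 * c3 + 1 / 25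

theorem okS_int : ∀ X : Finset (Fin 4), okS X →
    (∑ i ∈ X, sx i) ^ 2 + 3 * (∑ i ∈ X, sy i) ^ 2 ≤ 4 := by
  decide +kernel

theorem okT_int : ∀ X : Finset (Fin 4), okT X →
    3 * (∑ i ∈ X, sx i) ^ 2 + (∑ i ∈ X, sy i) ^ 2 ≤ 4 := by
  decide +kernel

theorem sum_coord (X : Finset (Fin 4)) (f : Fin 4 → E2) (k : Fin 2) :
    (∑ i ∈ X, f i) k = ∑ i ∈ X, f i k := by
  induction X using Finset.induction_on with
  | empty => simp
  | insert a s ha ih => rw [Finset.sum_insert ha, Finset.sum_insert ha, PiLp.add_apply, ih]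

theorem uu_ok (X : Finset (Fin 4)) (h : okS X) : ‖∑ i ∈ X, uu i‖ ≤ 1 := by
  have h1 : ‖∑ i ∈ X, uu i‖ ^ 2 ≤ 1 := by
    rw [norm2_sq, sum_coord, sum_coord]
    simp only [uu_0, uu_1]
    rw [← Finset.sum_div, ← Finset.sum_div, ← Finset.sum_mul]
    have h2 : ((∑ i ∈ X, (sx i : ℝ)) ^ 2 + 3 * (∑ i ∈ X, (sy i : ℝ)) ^ 2) ≤ 4 := by
      exact_mod_cast okS_int X h
    have h3 := c3_sq
    nlinarith
  nlinarith [norm_nonneg (∑ i ∈ X, uu i)]

theorem uu'_ok (X : Finset (Fin 4)) (h : okT X) : ‖∑ i ∈ X, uu' i‖ ≤ 1 := by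
  have h1 : ‖∑ i ∈ X, uu' i‖ ^ 2 ≤ 1 := by
    rw [norm2_sq, sum_coord, sum_coord]
    simp only [uu'_0, uu'_1]
    rw [← Finset.sum_div, ← Finset.sum_div, ← Finset.sum_mul]
    have h2 : (3 * (∑ i ∈ X, (sx i : ℝ)) ^ 2 + (∑ i ∈ X, (sy i : ℝ)) ^ 2) ≤ 4 := by
      exact_mod_cast okT_int X h
    have h3 := c3_sq
    nlinarith
  nlinarith [norm_nonneg (∑ i ∈ X, uu' i)]

theorem uu_sum : ∑ i, uu i = 0 := by
  ext k
  rw [sum_coord]
  fin_cases k <;> simp [Fin.sum_univ_four, uu_0, uu_1, sx, sy] <;> ring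

theorem uu'_sum : ∑ i, uu' i = 0 := by
  ext k
  rw [sum_coord]
  fin_cases k <;> simp [Fin.sum_univ_four, uu'_0, uu'_1, sx, sy] <;> ring

/-- Facts about a point of the ball at the end of a tail. -/
theorem tail_bound {i : Fin 4} {x : E2} (h : dist x (mw i) ≤ 1 / 1000) :
    (1 + c3) / 2 + 1 / 100 ≤ ⟪uu i, x⟫_ℝ := by
  have h1 := dist_lin (a := (sx i : ℝ) / 2) (b := (sy i : ℝ) * c3 / 2) (by
    have := sx_sq i; have := sy_sq i; have := c3_sq; nlinarith) (mw i) x
  rw [dist_comm] at h1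
  rw [mw_0, mw_1] at h1
  rw [inner2, uu_0, uu_1]
  have e1 := sx_sq i
  have e2 := sy_sq i
  have e3 := c3_sq
  have e4 : (sx i : ℝ) / 2 * ((sx i : ℝ) * (1 + 11 / 2000)) = (1 + 11 / 2000) / 2 := by
    linear_combination (1 + 11 / 2000) / 2 * e1
  have e5 : (sy i : ℝ) * c3 / 2 * ((sy i : ℝ) * (1 + 11 * c3 / 2000)) =
      c3 / 2 + 33 / 4000 := by
    linear_combination (c3 / 2 + 11 * c3 ^ 2 / 4000) * e2 + 11 / 4000 * e3
  nlinarith

theorem near_bound {a b : ℝ} (hab : a ^ 2 + b ^ 2 ≤ 1) {x y : E2} {δ : ℝ} (h : dist x y ≤ δ) :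
    a * y 0 + b * y 1 - δ ≤ a * x 0 + b * x 1 := by
  have h1 := dist_lin hab y x
  rw [dist_comm] at h1
  linarith

theorem corner_bound {i : Fin 4} {x : E2} (h : dist x (mv i) ≤ 1 / 1000) :
    0 ≤ (sx i : ℝ) * x 0 - (sy i : ℝ) * x 1 := by
  have e1 := sx_sq i
  have e2 := sy_sq i
  have e3 := c2_sq
  have hc := c2_pos
  have h1 := dist_lin (a := (sx i : ℝ) * c2 / 2) (b := -(sy i : ℝ) * c2 / 2) (by nlinarith)
    (mv i) x
  rw [dist_comm] at h1
  rw [mv_0, mv_1] at h1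
  have e4 : (sx i : ℝ) * c2 / 2 * ((sx i : ℝ) * (1 + c2 / 2000)) = (1 + c2 / 2000) * c2 / 2 := by
    linear_combination (1 + c2 / 2000) * c2 / 2 * e1
  have e5 : -(sy i : ℝ) * c2 / 2 * ((sy i : ℝ) * (1 - c2 / 2000)) =
      -((1 - c2 / 2000) * c2 / 2) := by
    linear_combination -((1 - c2 / 2000) * c2 / 2) * e2
  have h2 : c2 / 2 * ((sx i : ℝ) * x 0 - (sy i : ℝ) * x 1) ≥ 0 := by nlinarith
  by_contra hcon
  push Not at hcon
  nlinarith

theorem dist_mw_vv (i : Fin 4) : dist (mw i) (vv i) ≤ 11 / 1000 := by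
  refine le_of_abs_le (abs_le_of_sq_le_sq ?_ (by norm_num))
  rw [dist2_sq, mw_0, mw_1, vv_0, vv_1]
  have e1 := sx_sq i
  have e2 := sy_sq i
  have e3 := c3_sq
  have e4 : ((sx i : ℝ) * (1 + 11 / 2000) - (sx i : ℝ)) ^ 2 = (11 / 2000) ^ 2 := by
    linear_combination (11 / 2000) ^ 2 * e1
  have e5 : ((sy i : ℝ) * (1 + 11 * c3 / 2000) - (sy i : ℝ)) ^ 2 = 3 * (11 / 2000) ^ 2 := by
    linear_combination (11 * c3 / 2000) ^ 2 * e2 + (11 / 2000) ^ 2 * e3
  rw [e4, e5]
  norm_num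

theorem dist_mv_vv (i : Fin 4) : dist (mv i) (vv i) = 1 / 1000 := by
  have h : dist (mv i) (vv i) ^ 2 = (1 / 1000) ^ 2 := by
    rw [dist2_sq, mv_0, mv_1, vv_0, vv_1]
    have e1 := sx_sq i
    have e2 := sy_sq i
    have e3 := c2_sq
    have e4 : ((sx i : ℝ) * (1 + c2 / 2000) - (sx i : ℝ)) ^ 2 = c2 ^ 2 / 2000 ^ 2 := by
      linear_combination (c2 / 2000) ^ 2 * e1
    have e5 : ((sy i : ℝ) * (1 - c2 / 2000) - (sy i : ℝ)) ^ 2 = c2 ^ 2 / 2000 ^ 2 := by
      linear_combination (c2 / 2000) ^ 2 * e2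
    rw [e4, e5, e3]
    norm_num
  exact (sq_eq_sq₀ dist_nonneg (by norm_num)).1 h

/-- Integer tables of charges. -/
def Q0 : Fin 4 → Fin 4 → ℤ :=
  ![![0, -26, -70, 96], ![26, 0, -96, 70], ![70, -96, 0, 26], ![96, -70, -26, 0]]
/-- Integer tables of charges. -/
def Q1 : Fin 4 → Fin 4 → ℤ :=
  ![![0, 96, -70, -26], ![96, 0, -26, -70], ![70, 26, 0, -96], ![26, 70, -96, 0]]
/-- Integer tables of charges. -/
def E0 (a k : Fin 4) : ℤ := (sx a - sx k) / 2
/-- Integer tables of charges. -/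
def E1 (a k : Fin 4) : ℤ := if sx a = sx k then (sy a - sy k) / 2 else 0

theorem Q_sq : ∀ a j : Fin 4, Q0 a j ^ 2 + Q1 a j ^ 2 ≤ 10000 := by decide +kernel

set_option synthInstance.maxSize 4000 in
theorem Q_sum : ∀ k a b c : Fin 4, a ≠ k → b ≠ k → c ≠ k → a ≠ b → a ≠ c → b ≠ c →
    Q0 a b + Q0 a c + Q0 a k = 0 ∧ Q1 a b + Q1 a c + Q1 a k = 0 ∧
    (Q0 a b * sx b + Q1 a b * sy b) + (Q0 a c * sx c + Q1 a c * sy c) +
      (Q0 a k * sx k + Q1 a k * sy k) = 384 := by decide +kernel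

theorem E_val : ∀ a k : Fin 4, a ≠ k → E0 a k ^ 2 + E1 a k ^ 2 ≤ 1 ∧
    E0 a k * (sx a - sx k) + E1 a k * (sy a - sy k) = 2 := by decide +kernel

theorem Q_sq' (a j : Fin 4) : ((Q0 a j : ℝ) / 100) ^ 2 + ((Q1 a j : ℝ) / 100) ^ 2 ≤ 1 := by
  have h : ((Q0 a j : ℝ)) ^ 2 + ((Q1 a j : ℝ)) ^ 2 ≤ 10000 := by exact_mod_cast Q_sq a j
  nlinarith

theorem pass_bound {k a b c : Fin 4} (h1 : a ≠ k) (h2 : b ≠ k) (h3 : c ≠ k) (h4 : a ≠ b)
    (h5 : a ≠ c) (h6 : b ≠ c) {pa pb pc z m : E2} (ha : dist pa (vv a) ≤ 12 / 1000)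
    (hb : dist pb (vv b) ≤ 12 / 1000) (hc : dist pc (vv c) ≤ 12 / 1000)
    (hz : dist z (vv k) ≤ 48 / 1000 + 12 / 1000) :
    LL ≤ dist pa z + (dist pb m + dist pc m + dist m z) := by
  obtain ⟨s0, s1, sv⟩ := Q_sum k a b c h1 h2 h3 h4 h5 h6
  obtain ⟨en, ev⟩ := E_val a k h1
  have s0' : (Q0 a b : ℝ) + Q0 a c + Q0 a k = 0 := by exact_mod_cast s0
  have s1' : (Q1 a b : ℝ) + Q1 a c + Q1 a k = 0 := by exact_mod_cast s1
  have sv' : ((Q0 a b : ℝ) * sx b + Q1 a b * sy b) + (Q0 a c * sx c + Q1 a c * sy c) +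
      (Q0 a k * sx k + Q1 a k * sy k) = 384 := by exact_mod_cast sv
  have en' : (E0 a k : ℝ) ^ 2 + (E1 a k : ℝ) ^ 2 ≤ 1 := by exact_mod_cast en
  have ev' : (E0 a k : ℝ) * (sx a - sx k) + E1 a k * (sy a - sy k) = 2 := by exact_mod_cast ev
  have d1 := dist_lin en' pa z
  have d2 := near_bound en' ha
  have d3 : -(E0 a k : ℝ) * vv k 0 + -(E1 a k : ℝ) * vv k 1 - (48 / 1000 + 12 / 1000) ≤
      -(E0 a k : ℝ) * z 0 + -(E1 a k : ℝ) * z 1 :=
    near_bound (by simpa using en') hz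
  rw [vv_0, vv_1] at d2 d3
  have d4 := dist_lin (Q_sq' a b) pb m
  have d5 := dist_lin (Q_sq' a c) pc m
  have d6 := dist_lin (Q_sq' a k) z m
  rw [dist_comm z m] at d6
  have d7 := near_bound (Q_sq' a b) hb
  have d8 := near_bound (Q_sq' a c) hc
  have d9 := near_bound (Q_sq' a k) hz
  rw [vv_0, vv_1] at d7 d8 d9
  have m0 : (Q0 a b : ℝ) * m 0 + Q0 a c * m 0 + Q0 a k * m 0 = 0 := by
    rw [← add_mul, ← add_mul, s0', zero_mul]
  have m1 : (Q1 a b : ℝ) * m 1 + Q1 a c * m 1 + Q1 a k * m 1 = 0 := by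
    rw [← add_mul, ← add_mul, s1', zero_mul]
  have hc3 := c3_lt
  unfold LL
  linarith

/-- The data of the square with four tails, for any choice of points in the eight balls. -/
noncomputable def sqData (p : Lab → E2) (hp : ∀ l, dist (p l) (mm l) ≤ 1 / 1000) : Data E2 :=
  have ht : ∀ i, dist (p (i, true)) (mw i) ≤ 1 / 1000 := fun i => by simpa [mm] using hp (i, true)
  have hf : ∀ i, dist (p (i, false)) (mv i) ≤ 1 / 1000 := fun i => by
    simpa [mm] using hp (i, false)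
  have htv : ∀ i, dist (p (i, true)) (vv i) ≤ 12 / 1000 := fun i => by
    have := dist_triangle (p (i, true)) (mw i) (vv i)
    have := ht i
    have := dist_mw_vv i
    linarith
  have hfv : ∀ i, dist (p (i, false)) (vv i) ≤ 2 / 1000 := fun i => by
    have := dist_triangle (p (i, false)) (mv i) (vv i)
    have := hf i
    have := dist_mv_vv i
    linarith
  have hun : ∀ i, ((sx i : ℝ) / 2) ^ 2 + ((sy i : ℝ) * c3 / 2) ^ 2 ≤ 1 := fun i => by
    have := sx_sq i
    have := sy_sq i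
    have := c3_sq
    nlinarith
  have hun' : ∀ i, ((sx i : ℝ) * c3 / 2) ^ 2 + ((sy i : ℝ) / 2) ^ 2 ≤ 1 := fun i => by
    have := sx_sq i
    have := sy_sq i
    have := c3_sq
    nlinarith
  { p := p
    u := uu
    u' := uu'
    v := vv
    L := LL
    ρ := 48 / 1000
    δ := 12 / 1000
    hu := uu_ok
    hu' := uu'_ok
    h0 := uu_sum
    h0' := uu'_sum
    sel := by
      intro b
      have key : ∀ i, (1 + c3) / 2 - 2 / 1000 ≤ ⟪uu i, p (i, b i)⟫_ℝ := by
        intro i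
        cases hb : b i
        · have h1 := near_bound (hun i) (hfv i)
          rw [vv_0, vv_1] at h1
          rw [inner2, uu_0, uu_1]
          have e1 := sx_sq i
          have e2 := sy_sq i
          have e3 : (sx i : ℝ) / 2 * sx i + (sy i : ℝ) * c3 / 2 * sy i = (1 + c3) / 2 := by
            linear_combination e1 / 2 + c3 / 2 * e2
          linarith
        · have := tail_bound (ht i)
          linarith
      rw [Fin.sum_univ_four]
      have := key 0
      have := key 1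
      have := key 2
      have := key 3
      unfold LL
      linarith
    sel' := by
      intro b
      have key : ∀ i, (1 + c3) / 2 - 2 / 1000 ≤ ⟪uu' i, p (i, b i)⟫_ℝ := by
        intro i
        have e1 := sx_sq i
        have e2 := sy_sq i
        rw [inner2, uu'_0, uu'_1]
        cases hb : b i
        · have h1 := near_bound (hun' i) (hfv i)
          rw [vv_0, vv_1] at h1
          have e3 : (sx i : ℝ) * c3 / 2 * sx i + (sy i : ℝ) / 2 * sy i = (1 + c3) / 2 := by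
            linear_combination c3 / 2 * e1 + e2 / 2
          linarith
        · have h1 := near_bound (hun' i) (ht i)
          rw [mw_0, mw_1] at h1
          have e3 : (sx i : ℝ) * c3 / 2 * (sx i * (1 + 11 / 2000)) +
              (sy i : ℝ) / 2 * (sy i * (1 + 11 * c3 / 2000)) =
              (1 + c3) / 2 + 11 * c3 / 2000 := by
            linear_combination c3 / 2 * (1 + 11 / 2000) * e1 + (1 + 11 * c3 / 2000) / 2 * e2
          have := c3_gt
          linarith
      rw [Fin.sum_univ_four]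
      have := key 0
      have := key 1
      have := key 2
      have := key 3
      unfold LL
      linarith
    near := by
      rintro ⟨i, b⟩
      cases b
      · exact (hfv i).trans (by norm_num)
      · exact htv i
    far := by
      intro i j hij
      obtain ⟨en, ev⟩ := E_val i j hij
      have en' : (E0 i j : ℝ) ^ 2 + (E1 i j : ℝ) ^ 2 ≤ 1 := by exact_mod_cast en
      have ev' : (E0 i j : ℝ) * (sx i - sx j) + E1 i j * (sy i - sy j) = 2 := by exact_mod_cast ev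
      have d1 := dist_lin en' (vv i) (vv j)
      rw [vv_0, vv_0, vv_1, vv_1] at d1
      linarith
    pass := by
      intro k a b c h1 h2 h3 h4 h5 h6 z m hz
      exact pass_bound h1 h2 h3 h4 h5 h6 (htv a) (htv b) (htv c) hz
    fin := by
      intro a
      have key : ∀ i, (1 + c3) / 2 + 1 / 100 ≤
          dist (p (i, true)) (a i) + dist (p (i, false)) (a i) + ⟪uu i, a i⟫_ℝ := by
        intro i
        have h1 := tail_bound (ht i)
        have h2 := dist_lin (hun i) (p (i, true)) (a i)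
        have h3 : 0 ≤ dist (p (i, false)) (a i) := dist_nonneg
        rw [inner2, uu_0, uu_1] at *
        linarith
      unfold legs
      rw [Fin.sum_univ_four, Fin.sum_univ_four]
      have := key 0
      have := key 1
      have := key 2
      have := key 3
      unfold LL
      linarith
    fin' := by
      intro a
      have key : ∀ i, (1 + c3) / 2 + 1 / 100 ≤
          dist (p (i, true)) (a i) + dist (p (i, false)) (a i) + ⟪uu' i, a i⟫_ℝ := by
        intro i
        have e1 := sx_sq i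
        have e2 := sy_sq i
        have e3 := c3_sq
        have e4 := c3_lt
        have e5 := c3_gt
        have h1 := tail_bound (ht i)
        have h2 := dist_lin (hun i) (p (i, true)) (a i)
        have h3 := dist_lin (a := (c3 - 1) / 2 * sx i) (b := -((c3 - 1) / 2 * sy i)) (by
          have : ((c3 - 1) / 2 * sx i) ^ 2 + (-((c3 - 1) / 2 * sy i)) ^ 2 = 2 - c3 := by
            linear_combination ((c3 - 1) / 2) ^ 2 * e1 + ((c3 - 1) / 2) ^ 2 * e2 + e3 / 2
          rw [this]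
          linarith) (p (i, false)) (a i)
        have h4 := corner_bound (hf i)
        have h5 : 0 ≤ (c3 - 1) / 2 * ((sx i : ℝ) * p (i, false) 0 - (sy i : ℝ) * p (i, false) 1) :=
          mul_nonneg (by linarith) h4
        rw [inner2, uu_0, uu_1] at h1
        rw [inner2, uu'_0, uu'_1]
        nlinarith
      unfold legs
      rw [Fin.sum_univ_four, Fin.sum_univ_four]
      have := key 0
      have := key 1
      have := key 2
      have := key 3
      unfold LL
      linarith }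

/-- Every compact connected set that meets the eight balls has length at least `LL`. -/
theorem lower_bound {W : Set E2} (hW : IsCompact W) (hc : IsConnected W) (p : Lab → E2)
    (hpW : ∀ l, p l ∈ W) (hp : ∀ l, dist (p l) (mm l) ≤ 1 / 1000) :
    ENNReal.ofReal LL ≤ Measure.hausdorffMeasure 1 W := by
  by_cases hfin : Measure.hausdorffMeasure 1 W = (⊤ : ℝ≥0∞)
  · rw [hfin]; exact le_top
  · rw [ENNReal.ofReal_le_iff_le_toReal hfin]
    refine le_of_forall_pos_le_add fun ε hε => ?_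
    obtain ⟨l, hl, hl'⟩ := exists_conn hW hc hfin p (Finset.univ.erase (0, true))
      ⟨(0, false), by decide⟩ (fun i _ => hpW i) (hpW (0, true)) hε
    have := (sqData p hp).main hl
    exact le_trans this hl'

end Run7.h646
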