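import Pool.Agent.Run7.h968.TN.Defs5

/-!
# Piece restr5 of the project TN (MP_90732c_al)
-/

set_option autoImplicit false

namespace Run7.h646.TN

open Pool.Agent.Run7.h968.TN

theorem t_restr5 : P_restr5 := by
  classical
  rintro G _ H u h ⟨A₁, A₂, V, hcard, h1, h2⟩
  let mk : G → Quotient (QuotientGroup.rightRel H) := fun x => Quotient.mk _ x
  have hmk : ∀ x y : G, mk x = mk y ↔ y * x⁻¹ ∈ H := by
    intro x y
    have : mk x = mk y ↔ QuotientGroup.rightRel H x y := Quotient.eq
    rw [this, QuotientGroup.rightRel_apply]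
  set S := (A₁ ∪ A₂ ∪ V).image mk with hS
  have c1 := Finset.card_eq_sum_card_fiberwise (f := mk) (s := A₁) (t := S) (by
    intro x hx
    exact Finset.mem_image_of_mem _ (by simp [Finset.mem_coe.mp hx]))
  have c2 := Finset.card_eq_sum_card_fiberwise (f := mk) (s := A₂) (t := S) (by
    intro x hx
    exact Finset.mem_image_of_mem _ (by simp [Finset.mem_coe.mp hx]))
  have c3 := Finset.card_eq_sum_card_fiberwise (f := mk) (s := V) (t := S) (by
    intro x hx
    exact Finset.mem_image_of_mem _ (by simp [Finset.mem_coe.mp hx]))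
  obtain ⟨c, -, hc⟩ : ∃ c ∈ S, (V.filter (fun x => mk x = c)).card <
      (A₁.filter (fun x => mk x = c)).card + (A₂.filter (fun x => mk x = c)).card := by
    by_contra hcon
    push Not at hcon
    have := Finset.sum_le_sum hcon
    rw [Finset.sum_add_distrib] at this
    omega
  obtain ⟨t, ht⟩ : ∃ t : G, mk t = c := Quotient.exists_rep c
  let f : G → H := fun x => if hx : x * t⁻¹ ∈ H then ⟨x * t⁻¹, hx⟩ else 1
  have hf : ∀ x, mk x = c → ((f x : H) : G) = x * t⁻¹ := by
    intro x hx
    have hx' : x * t⁻¹ ∈ H := by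
      rw [← hmk, ht, hx]
    simp only [f, dif_pos hx']
  have hinj : ∀ x y, mk x = c → mk y = c → f x = f y → x = y := by
    intro x y hx hy hxy
    have h3 : ((f x : H) : G) = f y := by rw [hxy]
    rw [hf x hx, hf y hy] at h3
    exact mul_right_cancel h3
  have hmul : ∀ (g : H) (a : G), mk a = c → mk ((g : G) * a) = c ∧
      f ((g : G) * a) = g * f a := by
    intro g a ha
    have h3 : mk ((g : G) * a) = c := by
      rw [← ha, hmk]
      have : a * ((g : G) * a)⁻¹ = (g⁻¹ : H) := by
        push_cast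
        group
      rw [this]
      exact (g⁻¹).2
    refine ⟨h3, ?_⟩
    apply Subtype.ext
    rw [hf _ h3]
    push_cast
    rw [hf _ ha, mul_assoc]
  refine ⟨(A₁.filter (fun x => mk x = c)).image f, (A₂.filter (fun x => mk x = c)).image f,
    (V.filter (fun x => mk x = c)).image f, ?_, ?_, ?_⟩
  · have e1 : ((A₁.filter (fun x => mk x = c)).image f).card =
        (A₁.filter (fun x => mk x = c)).card := by
      apply Finset.card_image_of_injOn
      intro x hx y hy hxy
      simp only [Finset.coe_filter, Set.mem_ofPred_eq] at hx hy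
      exact hinj x y hx.2 hy.2 hxy
    have e2 : ((A₂.filter (fun x => mk x = c)).image f).card =
        (A₂.filter (fun x => mk x = c)).card := by
      apply Finset.card_image_of_injOn
      intro x hx y hy hxy
      simp only [Finset.coe_filter, Set.mem_ofPred_eq] at hx hy
      exact hinj x y hx.2 hy.2 hxy
    rw [e1, e2]
    exact lt_of_le_of_lt Finset.card_image_le hc
  · intro b hb
    obtain ⟨a, ha, rfl⟩ := Finset.mem_image.mp hb
    rw [Finset.mem_filter] at ha
    obtain ⟨g1, g2⟩ := h1 a ha.1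
    obtain ⟨m0, n0⟩ := hmul u a ha.2
    refine ⟨Finset.mem_image_of_mem f (Finset.mem_filter.mpr ⟨g1, ha.2⟩), ?_⟩
    rw [← n0]
    exact Finset.mem_image_of_mem f (Finset.mem_filter.mpr ⟨g2, m0⟩)
  · intro b hb
    obtain ⟨a, ha, rfl⟩ := Finset.mem_image.mp hb
    rw [Finset.mem_filter] at ha
    obtain ⟨g1, g2, g3⟩ := h2 a ha.1
    obtain ⟨m0, n0⟩ := hmul (h 0) a ha.2
    obtain ⟨m1, n1⟩ := hmul (h 1) a ha.2
    refine ⟨Finset.mem_image_of_mem f (Finset.mem_filter.mpr ⟨g1, ha.2⟩), ?_, ?_⟩
    · rw [← n0]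
      exact Finset.mem_image_of_mem f (Finset.mem_filter.mpr ⟨g2, m0⟩)
    · rw [← n1]
      exact Finset.mem_image_of_mem f (Finset.mem_filter.mpr ⟨g3, m1⟩)

end Run7.h646.TN
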