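import Pool.Agent.Run7.h646.Square

/-!
The two trees through the terminals of the square with four tails.
-/

set_option autoImplicit false

namespace Run7.h646

open scoped InnerProductSpace ENNReal
open MeasureTheory Set

/-- Distance of the branching points from the centre. -/
noncomputable def bb : ℝ := 1 - c3 / 3

/-- Branching points of the first tree. -/
noncomputable def jS (i : Fin 4) : E2 := !₂[(sx i : ℝ) * bb, 0]
/-- Branching points of the second tree. -/
noncomputable def jT (i : Fin 4) : E2 := !₂[0, (sy i : ℝ) * bb]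

theorem jS_0 (i : Fin 4) : jS i 0 = (sx i : ℝ) * bb := by simp [jS]
theorem jS_1 (i : Fin 4) : jS i 1 = 0 := by simp [jS]
theorem jT_0 (i : Fin 4) : jT i 0 = 0 := by simp [jT]
theorem jT_1 (i : Fin 4) : jT i 1 = (sy i : ℝ) * bb := by simp [jT]

/-- The first tree. -/
noncomputable def SS : Set E2 := (⋃ i, segment ℝ (ww i) (jS i)) ∪ segment ℝ (jS 0) (jS 1)
/-- The second tree. -/
noncomputable def TT : Set E2 :=
  (⋃ i, (segment ℝ (ww i) (vv i) ∪ segment ℝ (vv i) (jT i))) ∪ segment ℝ (jT 0) (jT 2)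

theorem isCompact_seg (x y : E2) : IsCompact (segment ℝ x y) := by
  have h := (Set.toFinite {x, y}).isCompact_convexHull (𝕜 := ℝ)
  rwa [convexHull_pair] at h

theorem isPreconnected_seg (x y : E2) : IsPreconnected (segment ℝ x y) :=
  (convex_segment x y).isPreconnected

theorem SS_compact : IsCompact SS :=
  (isCompact_iUnion fun _ => isCompact_seg _ _).union (isCompact_seg _ _)

theorem TT_compact : IsCompact TT :=
  (isCompact_iUnion fun _ => (isCompact_seg _ _).union (isCompact_seg _ _)).union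
    (isCompact_seg _ _)

theorem jS_mem (i : Fin 4) : jS i ∈ segment ℝ (jS 0) (jS 1) := by
  have h : jS i = jS 0 ∨ jS i = jS 1 := by
    fin_cases i
    · left; rfl
    · right; rfl
    · right; simp [jS, sx]
    · left; simp [jS, sx]
  rcases h with h | h
  · rw [h]; exact left_mem_segment _ _ _
  · rw [h]; exact right_mem_segment _ _ _

theorem jT_mem (i : Fin 4) : jT i ∈ segment ℝ (jT 0) (jT 2) := by
  have h : jT i = jT 0 ∨ jT i = jT 2 := by
    fin_cases i
    · left; rfl
    · left; simp [jT, sy]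
    · right; rfl
    · right; simp [jT, sy]
  rcases h with h | h
  · rw [h]; exact left_mem_segment _ _ _
  · rw [h]; exact right_mem_segment _ _ _

theorem SS_connected : IsConnected SS := by
  have e : SS = ⋃ i, (segment ℝ (ww i) (jS i) ∪ segment ℝ (jS 0) (jS 1)) := by
    unfold SS
    exact iUnion_union _ _
  refine ⟨⟨jS 0, Or.inr (left_mem_segment _ _ _)⟩, ?_⟩
  rw [e]
  refine isPreconnected_iUnion ⟨jS 0, ?_⟩ ?_
  · simp only [mem_iInter]
    exact fun i => Or.inr (left_mem_segment _ _ _)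
  · intro i
    exact IsPreconnected.union (jS i) (right_mem_segment _ _ _) (jS_mem i)
      (isPreconnected_seg _ _) (isPreconnected_seg _ _)

theorem TT_connected : IsConnected TT := by
  have e : TT = ⋃ i, ((segment ℝ (ww i) (vv i) ∪ segment ℝ (vv i) (jT i)) ∪
      segment ℝ (jT 0) (jT 2)) := by
    unfold TT
    exact iUnion_union _ _
  refine ⟨⟨jT 0, Or.inr (left_mem_segment _ _ _)⟩, ?_⟩
  rw [e]
  refine isPreconnected_iUnion ⟨jT 0, ?_⟩ ?_
  · simp only [mem_iInter]
    exact fun i => Or.inr (left_mem_segment _ _ _)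
  · intro i
    exact IsPreconnected.union (jT i) (Or.inr (right_mem_segment _ _ _)) (jT_mem i)
      (IsPreconnected.union (vv i) (right_mem_segment _ _ _) (left_mem_segment _ _ _)
        (isPreconnected_seg _ _) (isPreconnected_seg _ _)) (isPreconnected_seg _ _)

theorem dist_ww_jS (i : Fin 4) : dist (ww i) (jS i) = 1 / 100 + 2 * c3 / 3 := by
  have hc := c3_pos
  have h : dist (ww i) (jS i) ^ 2 = (1 / 100 + 2 * c3 / 3) ^ 2 := by
    rw [dist2_sq, ww_0, ww_1, jS_0, jS_1]
    unfold bb
    linear_combination (1 / 200 + c3 / 3) ^ 2 * sx_sq i + (1 + c3 / 200) ^ 2 * sy_sq i +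
      (1 / 9 + 1 / 40000 - 4 / 9) * c3_sq
  exact (sq_eq_sq₀ dist_nonneg (by positivity)).1 h

theorem dist_ww_vv (i : Fin 4) : dist (ww i) (vv i) = 1 / 100 := by
  have h : dist (ww i) (vv i) ^ 2 = (1 / 100) ^ 2 := by
    rw [dist2_sq, ww_0, ww_1, vv_0, vv_1]
    linear_combination (1 / 200) ^ 2 * sx_sq i + (c3 / 200) ^ 2 * sy_sq i +
      (1 / 40000) * c3_sq
  exact (sq_eq_sq₀ dist_nonneg (by positivity)).1 h

theorem dist_vv_jT (i : Fin 4) : dist (vv i) (jT i) = 2 * c3 / 3 := by
  have hc := c3_pos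
  have h : dist (vv i) (jT i) ^ 2 = (2 * c3 / 3) ^ 2 := by
    rw [dist2_sq, vv_0, vv_1, jT_0, jT_1]
    unfold bb
    linear_combination sx_sq i + (c3 / 3) ^ 2 * sy_sq i + (1 / 9 - 4 / 9) * c3_sq
  exact (sq_eq_sq₀ dist_nonneg (by positivity)).1 h

theorem bb_pos : 0 < bb := by
  have := c3_lt
  unfold bb
  linarith

theorem dist_jS : dist (jS 0) (jS 1) = 2 * bb := by
  have := bb_pos
  have h : dist (jS 0) (jS 1) ^ 2 = (2 * bb) ^ 2 := by
    rw [dist2_sq, jS_0, jS_0, jS_1, jS_1]
    simp [sx]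
    ring
  exact (sq_eq_sq₀ dist_nonneg (by positivity)).1 h

theorem dist_jT : dist (jT 0) (jT 2) = 2 * bb := by
  have := bb_pos
  have h : dist (jT 0) (jT 2) ^ 2 = (2 * bb) ^ 2 := by
    rw [dist2_sq, jT_0, jT_0, jT_1, jT_1]
    simp [sy]
    ring
  exact (sq_eq_sq₀ dist_nonneg (by positivity)).1 h

theorem SS_measure : Measure.hausdorffMeasure 1 SS ≤ ENNReal.ofReal LL := by
  have hc := c3_pos
  have hb := bb_pos
  unfold SS
  refine (measure_union_le _ _).trans ?_
  refine (add_le_add_left (measure_iUnion_fintype_le _ _) _).trans ?_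
  simp only [hausdorffMeasure_segment, edist_dist, dist_ww_jS, dist_jS]
  rw [Finset.sum_const, Finset.card_univ, Fintype.card_fin, ← ENNReal.ofReal_nsmul,
    ← ENNReal.ofReal_add (by positivity) (by positivity)]
  refine ENNReal.ofReal_le_ofReal ?_
  unfold LL bb
  simp only [nsmul_eq_mul]
  push_cast
  linarith

theorem TT_measure : Measure.hausdorffMeasure 1 TT ≤ ENNReal.ofReal LL := by
  have hc := c3_pos
  have hb := bb_pos
  unfold TT
  refine (measure_union_le _ _).trans ?_
  refine (add_le_add_left ((measure_iUnion_fintype_le _ _).trans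
    (Finset.sum_le_sum fun i _ => measure_union_le _ _)) _).trans ?_
  simp only [hausdorffMeasure_segment, edist_dist, dist_ww_vv, dist_vv_jT, dist_jT]
  rw [← ENNReal.ofReal_add (by positivity) (by positivity),
    Finset.sum_const, Finset.card_univ, Fintype.card_fin, ← ENNReal.ofReal_nsmul,
    ← ENNReal.ofReal_add (by positivity) (by positivity)]
  refine ENNReal.ofReal_le_ofReal ?_
  unfold LL bb
  simp only [nsmul_eq_mul]
  push_cast
  linarith

theorem ww_mem_SS (i : Fin 4) : ww i ∈ SS :=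
  Or.inl (mem_iUnion.2 ⟨i, left_mem_segment _ _ _⟩)

theorem vv_mem_SS (i : Fin 4) : vv i ∈ SS := by
  refine Or.inl (mem_iUnion.2 ⟨i, ?_⟩)
  have hc := c3_pos
  have hd : (0 : ℝ) < 1 / 100 + 2 * c3 / 3 := by positivity
  refine ⟨(2 * c3 / 3) / (1 / 100 + 2 * c3 / 3), (1 / 100) / (1 / 100 + 2 * c3 / 3),
    by positivity, by positivity, ?_, ?_⟩
  · field_simp
    ring
  · ext k
    fin_cases k
    · simp only [Fin.zero_eta, PiLp.add_apply, PiLp.smul_apply, smul_eq_mul, ww_0, jS_0, vv_0, bb]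
      field_simp
      ring_nf
    · simp only [Fin.mk_one, PiLp.add_apply, PiLp.smul_apply, smul_eq_mul, ww_1, jS_1, vv_1]
      field_simp
      linear_combination (200 * (sy i : ℝ)) * c3_sq

theorem ww_mem_TT (i : Fin 4) : ww i ∈ TT :=
  Or.inl (mem_iUnion.2 ⟨i, Or.inl (left_mem_segment _ _ _)⟩)

theorem vv_mem_TT (i : Fin 4) : vv i ∈ TT :=
  Or.inl (mem_iUnion.2 ⟨i, Or.inr (left_mem_segment _ _ _)⟩)

end Run7.h646
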